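import Pool.Agent.Lib.MP_7e9760_al.Graph

/-!
The amenable step: if `F` is almost invariant under right multiplication by the elements of
`S ∪ T` and the elements of `T` are already connected, then the elements of `S` can be connected
at a small cost.
-/

open MeasureTheory Set
open scoped ENNReal

namespace Pool.Agent.Lib.MP_7e9760_al

universe u

set_option linter.unusedSectionVars false
set_option linter.unusedVariables false

variable {G : Type u} [Group G]

/-- The label at `f` is strictly smaller than the other labels on `F`. -/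
def argminSet (F : Finset G) (f : G) : Set (G → ℝ) := {x | ∀ f' ∈ F, f' ≠ f → x f < x f'}

lemma argminSet_measurable (F : Finset G) (f : G) : MeasurableSet (argminSet F f) := by
  have : argminSet F f = ⋂ f' ∈ F, {x | f' ≠ f → x f < x f'} := by
    ext x; simp [argminSet]
  rw [this]
  refine Finset.measurableSet_biInter _ fun f' _ => ?_
  by_cases h : f' = f
  · simp [h]
  · simp only [ne_eq, h, not_false_eq_true, forall_true_left]
    exact measurableSet_lt (measurable_pi_apply f) (measurable_pi_apply f')

lemma argminSet_disjoint {F : Finset G} {f f' : G} (hf : f ∈ F) (hf' : f' ∈ F) (h : f ≠ f') :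
    Disjoint (argminSet F f) (argminSet F f') := by
  rw [Set.disjoint_left]
  intro x hx hx'
  have h1 := hx f' hf' h.symm
  have h2 := hx' f hf h
  exact lt_asymm h1 h2

lemma bern_argmin_eq {U : Finset G} {f f' : G} (hf : f ∈ U) (hf' : f' ∈ U) :
    bern G (argminSet U f) = bern G (argminSet U f') := by
  classical
  have hmp := bern_reindex (G := G) (Equiv.swap f f').injective
  rw [← hmp.measure_preimage (argminSet_measurable U f).nullMeasurableSet]
  congr 1
  ext x
  simp only [argminSet, Set.mem_preimage, Set.mem_ofPred_eq, Equiv.swap_apply_left]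
  constructor
  · intro h u hu huf
    have := h (Equiv.swap f f' u) ?_ ?_
    · simpa using this
    · rcases eq_or_ne u f with rfl | h1
      · simpa using hf'
      · rwa [Equiv.swap_apply_of_ne_of_ne h1 huf]
    · intro hcon
      apply huf
      have := congrArg (Equiv.swap f f') hcon
      simpa using this
  · intro h u hu huf
    apply h
    · rcases eq_or_ne u f' with rfl | h1
      · simpa using hf
      · rwa [Equiv.swap_apply_of_ne_of_ne huf h1]
    · intro hcon
      apply huf
      have := congrArg (Equiv.swap f f') hcon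
      simpa using this

lemma bern_argmin_le {U : Finset G} {f : G} (hf : f ∈ U) :
    (U.card : ℝ≥0∞) * bern G (argminSet U f) ≤ 1 := by
  have h1 : bern G (⋃ u ∈ U, argminSet U u) = ∑ u ∈ U, bern G (argminSet U u) := by
    apply measure_biUnion_finset
    · intro a ha b hb hab
      exact argminSet_disjoint ha hb hab
    · intro a _
      exact argminSet_measurable U a
  have h2 : ∑ u ∈ U, bern G (argminSet U u) = (U.card : ℝ≥0∞) * bern G (argminSet U f) := by
    rw [Finset.sum_congr rfl (fun u hu => bern_argmin_eq hu hf)]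
    simp
  rw [← h2, ← h1]
  exact prob_le_one

lemma ae_injective [Countable G] : ∀ᵐ x ∂(bern G), Function.Injective x := by
  have : ∀ᵐ x ∂(bern G), ∀ g h : G, g ≠ h → x g ≠ x h := by
    rw [ae_all_iff]; intro g
    rw [ae_all_iff]; intro h
    by_cases hgh : g = h
    · exact Filter.Eventually.of_forall fun _ h => absurd hgh h
    · have h0 := bern_tie (G := G) hgh
      have h1 : ∀ᵐ x ∂(bern G), ¬ (x g = x h) := by
        rw [ae_iff]; simpa using h0
      filter_upwards [h1] with x hx _
      exact hx
  filter_upwards [this] with x hx g h hgh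
  by_contra hne
  exact hx g h hne hgh

lemma exists_argmin {x : G → ℝ} (hx : Function.Injective x) {F : Finset G} (hF : F.Nonempty) :
    ∃ f ∈ F, x ∈ argminSet F f := by
  obtain ⟨f, hf, hmin⟩ := F.exists_min_image x hF
  refine ⟨f, hf, ?_⟩
  intro f' hf' hne
  exact lt_of_le_of_ne (hmin f' hf') (fun h => hne (hx h).symm)

/-- The centres of `x` and of `s x` are the same. -/
def sameC (F : Finset G) (s : G) : Set (G → ℝ) :=
  {x | ∃ f ∈ F, f * s ∈ F ∧ x ∈ argminSet F (f * s) ∧ sh s x ∈ argminSet F f}

lemma sameC_measurable (F : Finset G) (s : G) : MeasurableSet (sameC F s) := by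
  have : sameC F s = ⋃ f ∈ F, {x | f * s ∈ F ∧ x ∈ argminSet F (f * s) ∧
      sh s x ∈ argminSet F f} := by
    ext x; simp only [sameC, Set.mem_iUnion, Set.mem_ofPred_eq, exists_prop]
  rw [this]
  refine Finset.measurableSet_biUnion _ fun f _ => ?_
  by_cases h : f * s ∈ F
  · simp only [h, true_and]
    exact (argminSet_measurable F (f * s)).inter (sh_measurable s (argminSet_measurable F f))
  · simp [h]

open Classical in
lemma bern_badC [Countable G] {F : Finset G} (hF : F.Nonempty) {s : G} {η : ℝ} (hη : 0 ≤ η)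
    (h : ((F.filter (fun f => f * s ∉ F)).card : ℝ) ≤ η * (F.card : ℝ)) :
    bern G (sameC F s)ᶜ ≤ ENNReal.ofReal (2 * η) := by
  set n : ℕ := (F.filter (fun f => f * s ∉ F)).card with hn
  set Fs : Finset G := F.image (· * s) with hFs
  set U : Finset G := F ∪ Fs with hU
  set I : Finset G := F ∩ Fs with hI
  have hinj : Set.InjOn (· * s) (F : Set G) := fun a _ b _ hab => mul_right_cancel hab
  have hcardFs : Fs.card = F.card := Finset.card_image_of_injOn hinj
  have hIcard : I.card + n = F.card := by
    have h1 : I = (F.filter (fun f => f * s ∈ F)).image (· * s) := by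
      ext g
      simp only [hI, hFs, Finset.mem_inter, Finset.mem_image, Finset.mem_filter]
      constructor
      · rintro ⟨hg, f, hf, rfl⟩
        exact ⟨f, ⟨hf, hg⟩, rfl⟩
      · rintro ⟨f, ⟨hf, hfs⟩, rfl⟩
        exact ⟨hfs, f, hf, rfl⟩
    have h2 : I.card = (F.filter (fun f => f * s ∈ F)).card := by
      rw [h1]
      apply Finset.card_image_of_injOn
      intro a _ b _ hab
      exact mul_right_cancel hab
    rw [h2, hn]
    exact Finset.card_filter_add_card_filter_not (s := F) (fun f => f * s ∈ F)
  have hUI : U.card + I.card = F.card + Fs.card := Finset.card_union_add_card_inter F Fs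
  have hIU : I ⊆ U := Finset.inter_subset_left.trans Finset.subset_union_left
  have hdiff : (U \ I).card = 2 * n := by
    rw [Finset.card_sdiff_of_subset hIU]
    omega
  have hsub : bern G (sameC F s)ᶜ ≤ bern G (⋃ u ∈ U \ I, argminSet U u) := by
    apply measure_mono_ae
    filter_upwards [ae_injective (G := G)] with x hx hxs
    obtain ⟨u, hu, hxu⟩ := exists_argmin hx (F := U) (hF.mono Finset.subset_union_left)
    by_cases huI : u ∈ I
    · exfalso
      apply hxs
      rw [hI, Finset.mem_inter, hFs, Finset.mem_image] at huI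
      obtain ⟨huF, f, hf, rfl⟩ := huI
      refine ⟨f, hf, huF, ?_, ?_⟩
      · intro f' hf' hne
        exact hxu f' (Finset.mem_union_left _ hf') hne
      · intro f' hf' hne
        simp only [sh_apply]
        apply hxu
        · exact Finset.mem_union_right _ (Finset.mem_image.2 ⟨f', hf', rfl⟩)
        · intro hcon; exact hne (mul_right_cancel hcon)
    · exact Set.mem_biUnion (Finset.mem_coe.2 (Finset.mem_sdiff.2 ⟨hu, huI⟩)) hxu
  have h3 : (U.card : ℝ≥0∞) * bern G (⋃ u ∈ U \ I, argminSet U u) ≤ 2 * n := by
    calc (U.card : ℝ≥0∞) * bern G (⋃ u ∈ U \ I, argminSet U u)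
        ≤ (U.card : ℝ≥0∞) * ∑ u ∈ U \ I, bern G (argminSet U u) := by
          gcongr
          exact measure_biUnion_finset_le _ _
      _ = ∑ u ∈ U \ I, (U.card : ℝ≥0∞) * bern G (argminSet U u) := by rw [Finset.mul_sum]
      _ ≤ ∑ u ∈ U \ I, 1 := Finset.sum_le_sum fun u hu =>
          bern_argmin_le (Finset.mem_sdiff.1 hu).1
      _ = 2 * n := by simp [hdiff]
  have h4 : (F.card : ℝ≥0∞) * bern G (sameC F s)ᶜ ≤ (F.card : ℝ≥0∞) * ENNReal.ofReal (2 * η) := by
    calc (F.card : ℝ≥0∞) * bern G (sameC F s)ᶜ
        ≤ (U.card : ℝ≥0∞) * bern G (⋃ u ∈ U \ I, argminSet U u) := by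
          gcongr
          exact Finset.subset_union_left
      _ ≤ 2 * n := h3
      _ = ENNReal.ofReal (2 * (n : ℝ)) := by
          rw [ENNReal.ofReal_mul (by norm_num)]; simp
      _ ≤ ENNReal.ofReal (F.card * (2 * η)) := by
          apply ENNReal.ofReal_le_ofReal; nlinarith
      _ = (F.card : ℝ≥0∞) * ENNReal.ofReal (2 * η) := by
          rw [ENNReal.ofReal_mul (by positivity)]; simp
  have hF0 : (F.card : ℝ≥0∞) ≠ 0 := by
    have := hF.card_pos
    simp; exact hF.ne_empty
  exact (ENNReal.mul_le_mul_iff_right hF0 (by simp)).1 h4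

open Classical in
theorem am_step [Countable G] {F : Finset G} (hF : F.Nonempty) (T S : Finset G) {η δ : ℝ}
    (hη : 0 ≤ η) (h0 : 0 ≤ δ) (h1 : δ ≤ 1)
    (h : ∀ s ∈ S ∪ T, ((F.filter (fun f => f * s ∉ F)).card : ℝ) ≤ η * (F.card : ℝ))
    (A : Gph G) (hT : ∀ t ∈ T, t ∈ conn A) :
    ∃ D : Gph G, MeasG D ∧
      gcost D ≤ ENNReal.ofReal δ + ENNReal.ofReal (1 - δ) ^ T.card +
        (T.card + S.card) * ENNReal.ofReal (2 * η) ∧
      ∀ s ∈ S, s ∈ conn (A ⊔ D) := by
  set Y : Set (G → ℝ) := ({x | x 1 < δ} ∪ {x | ∀ t ∈ T, δ ≤ x t}) ∪ ⋃ t ∈ T, (sameC F t)ᶜ with hY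
  have hE : MeasurableSet {x : G → ℝ | x 1 < δ} :=
    measurableSet_lt (measurable_pi_apply 1) measurable_const
  have hge : MeasurableSet {x : G → ℝ | ∀ t ∈ T, δ ≤ x t} := by
    have : {x : G → ℝ | ∀ t ∈ T, δ ≤ x t} = ⋂ t ∈ T, {x | δ ≤ x t} := by ext x; simp
    rw [this]
    exact Finset.measurableSet_biInter _ fun t _ =>
      measurableSet_le measurable_const (measurable_pi_apply t)
  have hbad : MeasurableSet (⋃ t ∈ T, (sameC F t)ᶜ) :=
    Finset.measurableSet_biUnion _ fun t _ => (sameC_measurable F t).compl
  have hYm : MeasurableSet Y := (hE.union hge).union hbad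
  set D1 : Gph G := fun g => {x | g ∈ F ∧ x ∈ argminSet F g ∧ x ∈ Y} with hD1
  set D2 : Gph G := fun g => {x | g ∈ S ∧ x ∈ (sameC F g)ᶜ} with hD2
  have hD1m : MeasG D1 := by
    intro g
    by_cases hg : g ∈ F
    · simp only [hD1, hg, true_and]
      exact (argminSet_measurable F g).inter hYm
    · simp [hD1, hg]
  have hD2m : MeasG D2 := by
    intro g
    by_cases hg : g ∈ S
    · simp only [hD2, hg, true_and]
      exact (sameC_measurable F g).compl
    · simp [hD2, hg]
  refine ⟨D1 ⊔ D2, hD1m.sup hD2m, ?_, ?_⟩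
  · -- the cost
    have c1 : gcost D1 ≤ bern G Y := by
      unfold gcost
      rw [tsum_eq_sum (s := F)]
      · have e : ∑ g ∈ F, bern G (D1 g) = bern G (⋃ g ∈ F, D1 g) := by
          symm
          apply measure_biUnion_finset
          · intro a ha b hb hab
            apply (argminSet_disjoint ha hb hab).mono
            · rintro x ⟨_, hx, _⟩; exact hx
            · rintro x ⟨_, hx, _⟩; exact hx
          · intro a _; exact hD1m a
        rw [e]
        apply measure_mono
        intro x hx
        simp only [Set.mem_iUnion] at hx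
        obtain ⟨g, _, _, _, hxY⟩ := hx
        exact hxY
      · intro g hg
        have : D1 g = ∅ := by ext x; simp [hD1, hg]
        rw [this]; simp
    have c2 : gcost D2 ≤ S.card * ENNReal.ofReal (2 * η) := by
      unfold gcost
      rw [tsum_eq_sum (s := S)]
      · calc ∑ g ∈ S, bern G (D2 g) ≤ ∑ g ∈ S, ENNReal.ofReal (2 * η) := by
              refine Finset.sum_le_sum fun g hg => ?_
              have : D2 g = (sameC F g)ᶜ := by ext x; simp [hD2, hg]
              rw [this]
              exact bern_badC hF hη (h g (Finset.mem_union_left _ hg))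
          _ = S.card * ENNReal.ofReal (2 * η) := by simp
      · intro g hg
        have : D2 g = ∅ := by ext x; simp [hD2, hg]
        rw [this]; simp
    have c3 : bern G Y ≤ ENNReal.ofReal δ + ENNReal.ofReal (1 - δ) ^ T.card +
        T.card * ENNReal.ofReal (2 * η) := by
      rw [hY]
      refine (measure_union_le _ _).trans ?_
      refine add_le_add ((measure_union_le _ _).trans ?_) ?_
      · rw [bern_lt 1 h0 h1, bern_all_ge T h0 h1]
      · refine (measure_biUnion_finset_le _ _).trans ?_
        calc ∑ t ∈ T, bern G (sameC F t)ᶜ ≤ ∑ t ∈ T, ENNReal.ofReal (2 * η) :=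
              Finset.sum_le_sum fun t ht => bern_badC hF hη (h t (Finset.mem_union_right _ ht))
          _ = T.card * ENNReal.ofReal (2 * η) := by simp
    calc gcost (D1 ⊔ D2) ≤ gcost D1 + gcost D2 := gcost_sup_le _ _
      _ ≤ (ENNReal.ofReal δ + ENNReal.ofReal (1 - δ) ^ T.card +
        T.card * ENNReal.ofReal (2 * η)) + S.card * ENNReal.ofReal (2 * η) :=
          add_le_add (c1.trans c3) c2
      _ = _ := by ring
  · -- connectivity
    set B : Gph G := A ⊔ (D1 ⊔ D2) with hB
    have hAB : A ≤ B := le_sup_left
    -- every point is connected to its centre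
    have hcen : ∀ᵐ x ∂(bern G), ∀ f ∈ F, x ∈ argminSet F f → Cn B x (sh f x) := by
      have hT' : ∀ᵐ x ∂(bern G), ∀ t ∈ T, Cn A x (sh t x) := by
        have : ∀ᵐ x ∂(bern G), ∀ t : T, Cn A x (sh t x) := by
          rw [ae_all_iff]; exact fun t => hT t t.2
        filter_upwards [this] with x hx t ht
        exact hx ⟨t, ht⟩
      filter_upwards [hT'] with x hx f hf hxf
      by_cases hxY : x ∈ Y
      · have : x ∈ B f := Or.inr (Or.inl ⟨hf, hxf, hxY⟩)
        exact Cn.edge this
      · rw [hY, Set.mem_union, Set.mem_union, not_or, not_or] at hxY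
        obtain ⟨⟨_, h2⟩, h3⟩ := hxY
        simp only [Set.mem_ofPred_eq, not_forall, not_le] at h2
        obtain ⟨t, ht, hlt⟩ := h2
        have h4 : x ∈ sameC F t := by
          by_contra hcon
          exact h3 (Set.mem_biUnion ht hcon)
        obtain ⟨f', hf', hf's, ha, hb⟩ := h4
        have hff : f' * t = f := by
          by_contra hne
          exact Set.disjoint_left.1 (argminSet_disjoint hf's hf hne) ha hxf
        have h5 : Cn B x (sh t x) := (hx t ht).mono hAB
        have h6 : sh t x ∈ Y := by
          rw [hY]; left; left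
          simpa using hlt
        have h7 : sh t x ∈ B f' := Or.inr (Or.inl ⟨hf', hb, h6⟩)
        have h8 := Cn.edge h7
        rw [sh_sh, hff] at h8
        exact h5.trans h8
    intro s hs
    rw [mem_conn]
    filter_upwards [hcen, ae_sh s hcen] with x hx hxs
    by_cases hsame : x ∈ sameC F s
    · obtain ⟨f, hf, hfs, ha, hb⟩ := hsame
      have h5 := hx (f * s) hfs ha
      have h6 := hxs f hf hb
      rw [sh_sh] at h6
      exact h5.trans h6.symm
    · have : x ∈ B s := Or.inr (Or.inr ⟨hs, hsame⟩)
      exact Cn.edge this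

end Pool.Agent.Lib.MP_7e9760_al
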