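import Mathlib

/-!
Definitions for problem MP_7e9760_al (cost of groups whose 2-generated subgroups are amenable).
-/

open MeasureTheory
open scoped ENNReal

namespace Pool.Agent.Lib.MP_7e9760_al

universe u

open Classical in
/-- Amenability of a discrete group, in the form of the Folner condition: for every finite set `S`
and every `ε > 0` there is a nonempty finite set `F` such that for every `s ∈ S` at most
`ε * |F|` elements `x` of `F` have `s * x` outside `F`. -/
def IsAmenable (H : Type u) [Group H] : Prop :=
  ∀ (S : Finset H) (ε : ℝ), 0 < ε →
    ∃ F : Finset H, F.Nonempty ∧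
      ∀ s ∈ S, ((F.filter (fun x => s * x ∉ F)).card : ℝ) ≤ ε * (F.card : ℝ)

/-- Every subgroup generated by two elements is amenable. -/
def Amen2 (G : Type u) [Group G] : Prop :=
  ∀ a b : G, IsAmenable (Subgroup.closure {a, b} : Subgroup G)

/-- `G` acts on the probability space `(X, μ)` by measure-preserving measurable maps, freely
outside a null set. -/
structure IsFreePmpAction (G : Type u) [Group G] (X : Type u) [MeasurableSpace X]
    [MulAction G X] (μ : Measure X) : Prop where
  isProbabilityMeasure : IsProbabilityMeasure μ
  measurePreserving : ∀ g : G, MeasurePreserving (fun x : X => g • x) μ μ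
  free : ∀ᵐ x ∂μ, ∀ g : G, g • x = x → g = 1

/-- A graphing of an action: countably many Borel bijections `map i` from the Borel set `dom i`
onto a Borel set, with `map i x` in the orbit of `x`, such that almost surely the connected
components of the graph joining each `x ∈ dom i` to `map i x` are exactly the orbits. (A finite
family is extended by empty domains.) -/
structure Graphing (G : Type u) [Group G] (X : Type u) [MeasurableSpace X]
    [MulAction G X] (μ : Measure X) where
  dom : ℕ → Set X
  map : ℕ → X → X
  measurableSet_dom : ∀ i, MeasurableSet (dom i)
  measurable_map : ∀ i, Measurable (map i)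
  measurableSet_image : ∀ i, MeasurableSet (map i '' dom i)
  injOn : ∀ i, Set.InjOn (map i) (dom i)
  mem_orbit : ∀ i, ∀ x ∈ dom i, map i x ∈ MulAction.orbit G x
  components : ∀ᵐ x ∂μ, ∀ y : X,
    Relation.EqvGen (fun a b => ∃ i, a ∈ dom i ∧ map i a = b) x y ↔ y ∈ MulAction.orbit G x

/-- The cost of a graphing: the sum of the measures of the domains. -/
noncomputable def Graphing.cost {G : Type u} [Group G] {X : Type u} [MeasurableSpace X]
    [MulAction G X] {μ : Measure X} (Φ : Graphing G X μ) : ℝ≥0∞ :=
  ∑' i, μ (Φ.dom i)

/-- The cost of an action: the infimum of the costs of its graphings. -/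
noncomputable def actionCost (G : Type u) [Group G] (X : Type u) [MeasurableSpace X]
    [MulAction G X] (μ : Measure X) : ℝ≥0∞ :=
  ⨅ Φ : Graphing G X μ, Φ.cost

/-- The cost of a group: the infimum of the costs of its probability-measure-preserving actions
on standard Borel probability spaces that are free outside a null set. -/
noncomputable def groupCost (G : Type u) [Group G] : ℝ≥0∞ :=
  ⨅ (X : Type u) (_ : MeasurableSpace X) (_ : StandardBorelSpace X) (_ : MulAction G X)
    (μ : Measure X) (_ : IsFreePmpAction G X μ), actionCost G X μ

end Pool.Agent.Lib.MP_7e9760_al
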