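import Pool.Agent.Lib.MP_7e9760_al.Am
import Pool.Agent.Lib.MP_7e9760_al.Defs

/-!
Applying the amenable step inside an amenable subgroup.
-/

open MeasureTheory Set
open scoped ENNReal

namespace Pool.Agent.Lib.MP_7e9760_al

universe u

variable {G : Type u} [Group G]

open Classical in
lemma folner_right {B : Subgroup G} (hB : IsAmenable B) (S : Finset G) (hS : ∀ s ∈ S, s ∈ B)
    {η : ℝ} (hη : 0 < η) :
    ∃ F : Finset G, F.Nonempty ∧
      ∀ s ∈ S, ((F.filter (fun f => f * s ∉ F)).card : ℝ) ≤ η * (F.card : ℝ) := by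
  set S' : Finset B := S.attach.image (fun s => (⟨s.1, hS s.1 s.2⟩ : B)⁻¹) with hS'
  obtain ⟨F', hF', h⟩ := hB S' η hη
  set F : Finset G := F'.image (fun x : B => (x : G)⁻¹) with hF
  have hinj : Function.Injective (fun x : B => (x : G)⁻¹) := by
    intro a b hab
    exact Subtype.ext (inv_injective hab)
  refine ⟨F, hF'.image _, ?_⟩
  intro s hs
  have h1 := h ((⟨s, hS s hs⟩ : B)⁻¹) (by
    rw [hS', Finset.mem_image]
    exact ⟨⟨s, hs⟩, Finset.mem_attach _ _, rfl⟩)
  have hc : F.card = F'.card := Finset.card_image_of_injective _ hinj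
  have h2 : F.filter (fun f => f * s ∉ F) =
      (F'.filter (fun x => (⟨s, hS s hs⟩ : B)⁻¹ * x ∉ F')).image (fun x : B => (x : G)⁻¹) := by
    ext g
    simp only [hF, Finset.mem_filter, Finset.mem_image]
    constructor
    · rintro ⟨⟨x, hx, rfl⟩, hn⟩
      refine ⟨x, ⟨hx, ?_⟩, rfl⟩
      intro hcon
      apply hn
      refine ⟨_, hcon, ?_⟩
      simp
    · rintro ⟨x, ⟨hx, hn⟩, rfl⟩
      refine ⟨⟨x, hx, rfl⟩, ?_⟩
      rintro ⟨y, hy, hyx⟩
      apply hn
      have : y = (⟨s, hS s hs⟩ : B)⁻¹ * x := by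
        apply Subtype.ext
        have := congrArg (·⁻¹) hyx
        simpa using this
      rwa [← this]
  rw [hc, h2, Finset.card_image_of_injective _ hinj]
  convert h1 using 3
  ext x
  simp only [Finset.mem_filter]

theorem am_step' [Countable G] {ε : ℝ} (hε : 0 < ε) :
    ∃ m : ℕ, ∀ (B : Subgroup G), IsAmenable B → ∀ (T S : Finset G), (∀ t ∈ T, t ∈ B) →
      (∀ s ∈ S, s ∈ B) → m ≤ T.card → ∀ A : Gph G, (∀ t ∈ T, t ∈ conn A) →
      ∃ D : Gph G, MeasG D ∧ gcost D ≤ ENNReal.ofReal ε ∧ ∀ s ∈ S, s ∈ conn (A ⊔ D) := by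
  classical
  set δ : ℝ := min (ε / 3) 1 with hδ
  have hδ0 : 0 < δ := by rw [hδ]; exact lt_min (by positivity) one_pos
  have hδ1 : δ ≤ 1 := min_le_right _ _
  obtain ⟨m, hm⟩ := exists_pow_lt_of_lt_one (show 0 < ε / 3 by positivity)
    (show 1 - δ < 1 by linarith)
  refine ⟨m, ?_⟩
  intro B hB T S hT hS hmT A hTA
  set η : ℝ := ε / (6 * ((T.card : ℝ) + S.card + 1)) with hη
  have hη0 : 0 < η := by positivity
  obtain ⟨F, hF, hF'⟩ := folner_right hB (S ∪ T) (by
    intro s hs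
    rcases Finset.mem_union.1 hs with h | h
    · exact hS s h
    · exact hT s h) hη0
  obtain ⟨D, hD1, hD2, hD3⟩ := am_step hF T S hη0.le hδ0.le hδ1 hF' A hTA
  refine ⟨D, hD1, hD2.trans ?_, hD3⟩
  rw [← ENNReal.ofReal_pow (by linarith)]
  have hp0 : 0 ≤ (1 - δ) ^ T.card := pow_nonneg (by linarith) _
  have e1 : ((T.card : ℝ≥0∞) + S.card) * ENNReal.ofReal (2 * η) =
      ENNReal.ofReal (((T.card : ℝ) + S.card) * (2 * η)) := by
    rw [ENNReal.ofReal_mul (p := (T.card : ℝ) + S.card) (by positivity),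
      ENNReal.ofReal_add (p := (T.card : ℝ)) (by positivity) (by positivity)]
    simp
  rw [e1, ← ENNReal.ofReal_add hδ0.le hp0, ← ENNReal.ofReal_add (by positivity) (by positivity)]
  apply ENNReal.ofReal_le_ofReal
  have h1 : δ ≤ ε / 3 := min_le_left _ _
  have h2 : (1 - δ) ^ T.card ≤ (1 - δ) ^ m :=
    pow_le_pow_of_le_one (by linarith) (by linarith) hmT
  have h3 : ((T.card : ℝ) + S.card) * (2 * η) ≤ ε / 3 := by
    have hpos : (0 : ℝ) < 6 * ((T.card : ℝ) + S.card + 1) := by positivity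
    have e2 : ((T.card : ℝ) + S.card) * (2 * η) =
        (ε / 3) * ((((T.card : ℝ) + S.card)) / ((T.card : ℝ) + S.card + 1)) := by
      rw [hη]; field_simp; ring
    rw [e2]
    have h4 : (((T.card : ℝ) + S.card)) / ((T.card : ℝ) + S.card + 1) ≤ 1 := by
      rw [div_le_one (by positivity)]; linarith
    nlinarith
  linarith

theorem am_start [Countable G] {ε : ℝ} (hε : 0 < ε) (B : Subgroup G) (hB : IsAmenable B)
    (S : Finset G) (hS : ∀ s ∈ S, s ∈ B) :
    ∃ A : Gph G, MeasG A ∧ gcost A ≤ 1 + ENNReal.ofReal ε ∧ ∀ s ∈ S, s ∈ conn A := by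
  classical
  set η : ℝ := ε / (2 * ((S.card : ℝ) + 1)) with hη
  have hη0 : 0 < η := by positivity
  obtain ⟨F, hF, hF'⟩ := folner_right hB (S ∪ {1}) (by
    intro s hs
    rcases Finset.mem_union.1 hs with h | h
    · exact hS s h
    · rw [Finset.mem_singleton.1 h]; exact B.one_mem) hη0
  obtain ⟨D, hD1, hD2, hD3⟩ := am_step (δ := 0) hF {1} S hη0.le le_rfl zero_le_one hF' ⊥ (by
    intro t ht; rw [Finset.mem_singleton.1 ht]; exact (conn ⊥).one_mem)
  rw [bot_sup_eq] at hD3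
  refine ⟨D, hD1, hD2.trans ?_, hD3⟩
  have e1 : ((({1} : Finset G).card : ℝ≥0∞) + S.card) * ENNReal.ofReal (2 * η) =
      ENNReal.ofReal ε := by
    have : ((({1} : Finset G).card : ℝ≥0∞) + S.card) = ENNReal.ofReal (1 + S.card) := by
      rw [ENNReal.ofReal_add zero_le_one (by positivity)]; simp
    rw [this, ← ENNReal.ofReal_mul (by positivity)]
    congr 1
    rw [hη]; field_simp; ring
  rw [e1]
  simp

end Pool.Agent.Lib.MP_7e9760_al
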