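import Mathlib

/-!
The space of labellings `G → ℝ` with independent labels uniform on `[0,1]`.
-/

open MeasureTheory ProbabilityTheory Set
open scoped ENNReal

namespace Pool.Agent.Lib.MP_7e9760_al

universe u

/-- The law of one label: uniform on `[0,1]`. -/
noncomputable def nu : Measure ℝ := volume.restrict (Set.Icc 0 1)

instance : IsProbabilityMeasure nu := ⟨by simp [nu]⟩

instance : NullSingletonClass nu := by unfold nu; infer_instance

lemma nu_Iio {δ : ℝ} (h0 : 0 ≤ δ) (h1 : δ ≤ 1) : nu (Set.Iio δ) = ENNReal.ofReal δ := by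
  unfold nu
  rw [Measure.restrict_apply measurableSet_Iio]
  have : Set.Iio δ ∩ Set.Icc 0 1 = Set.Ico 0 δ := by
    ext x; simp only [Set.mem_inter_iff, Set.mem_Iio, Set.mem_Icc, Set.mem_Ico]
    constructor
    · rintro ⟨a, b, c⟩; exact ⟨b, a⟩
    · rintro ⟨a, b⟩; exact ⟨b, a, by linarith⟩
  rw [this]; simp

lemma nu_Ici {δ : ℝ} (h0 : 0 ≤ δ) (h1 : δ ≤ 1) : nu (Set.Ici δ) = ENNReal.ofReal (1 - δ) := by
  unfold nu
  rw [Measure.restrict_apply measurableSet_Ici]
  have : Set.Ici δ ∩ Set.Icc 0 1 = Set.Icc δ 1 := by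
    ext x; simp only [Set.mem_inter_iff, Set.mem_Ici, Set.mem_Icc]
    constructor
    · rintro ⟨a, b, c⟩; exact ⟨a, c⟩
    · rintro ⟨a, b⟩; exact ⟨a, by linarith, b⟩
  rw [this]; simp

/-- The product measure on labellings. -/
noncomputable def bern (G : Type u) : Measure (G → ℝ) := Measure.infinitePi (fun _ => nu)

instance (G : Type u) : IsProbabilityMeasure (bern G) := by unfold bern; infer_instance

variable {G : Type u}

lemma bern_reindex {σ : G → G} (hσ : Function.Injective σ) :
    MeasurePreserving (fun (x : G → ℝ) g => x (σ g)) (bern G) (bern G) := by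
  refine ⟨by fun_prop, ?_⟩
  unfold bern
  exact Measure.map_infinitePi_infinitePi_of_inj (P := fun _ : G => nu) hσ

lemma bern_tie {g h : G} (hgh : g ≠ h) : bern G {x | x g = x h} = 0 := by
  have h1 : (bern G).map (fun x => (x g, x h)) = nu.prod nu := by
    unfold bern
    exact Measure.infinitePi_map_eval_prod (P := fun _ : G => nu) hgh
  have hm : MeasurableSet {p : ℝ × ℝ | p.1 = p.2} := measurableSet_eq_fun measurable_fst measurable_snd
  have h2 : (nu.prod nu) {p : ℝ × ℝ | p.1 = p.2} = 0 := by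
    rw [Measure.prod_apply hm]
    have : ∀ a : ℝ, nu (Prod.mk a ⁻¹' {p : ℝ × ℝ | p.1 = p.2}) = 0 := by
      intro a
      have : Prod.mk a ⁻¹' {p : ℝ × ℝ | p.1 = p.2} = {a} := by
        ext b; simp [eq_comm]
      rw [this]; simp
    simp [this]
  rw [← h1, Measure.map_apply (by fun_prop) hm] at h2
  exact h2

lemma bern_pi (T : Finset G) (B : G → Set ℝ) (hB : ∀ t ∈ T, MeasurableSet (B t)) :
    bern G {x | ∀ t ∈ T, x t ∈ B t} = ∏ t ∈ T, nu (B t) := by
  unfold bern
  have := Measure.infinitePi_pi (μ := fun _ : G => nu) (s := T) (t := B) hB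
  rw [← this]; rfl

lemma bern_lt (g : G) {δ : ℝ} (h0 : 0 ≤ δ) (h1 : δ ≤ 1) :
    bern G {x | x g < δ} = ENNReal.ofReal δ := by
  have := bern_pi {g} (fun _ => Set.Iio δ) (fun _ _ => measurableSet_Iio)
  simpa [nu_Iio h0 h1] using this

lemma bern_all_ge (T : Finset G) {δ : ℝ} (h0 : 0 ≤ δ) (h1 : δ ≤ 1) :
    bern G {x | ∀ t ∈ T, δ ≤ x t} = ENNReal.ofReal (1 - δ) ^ T.card := by
  have := bern_pi T (fun _ => Set.Ici δ) (fun _ _ => measurableSet_Ici)
  simpa [nu_Ici h0 h1] using this

lemma bern_all_lt (T : Finset G) {δ : ℝ} (h0 : 0 ≤ δ) (h1 : δ ≤ 1) :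
    bern G {x | ∀ t ∈ T, x t < δ} = ENNReal.ofReal δ ^ T.card := by
  have := bern_pi T (fun _ => Set.Iio δ) (fun _ _ => measurableSet_Iio)
  simpa [nu_Iio h0 h1] using this

/-- Independence of events depending on disjoint finite sets of coordinates. -/
lemma bern_indep (S T : Finset G) (hST : Disjoint S T) (U : Set (S → ℝ)) (V : Set (T → ℝ))
    (hU : MeasurableSet U) (hV : MeasurableSet V) :
    bern G ({x | (fun s : S => x s) ∈ U} ∩ {x | (fun t : T => x t) ∈ V}) =
      bern G {x | (fun s : S => x s) ∈ U} * bern G {x | (fun t : T => x t) ∈ V} := by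
  have hI : iIndepFun (fun (g : G) (x : G → ℝ) => x g) (bern G) := by
    unfold bern
    exact iIndepFun_infinitePi (X := fun _ x => x) (by fun_prop)
  have := hI.indepFun_finset S T hST (by fun_prop)
  have := this.measure_inter_preimage_eq_mul U V hU hV
  exact this

/-- The event that in every one of the finite sets of the list some label is at least `δ`. -/
def failSet (δ : ℝ) (l : List (Finset G)) : Set (G → ℝ) := {x | ∀ Q ∈ l, ∃ q ∈ Q, δ ≤ x q}

lemma failSet_measurable (δ : ℝ) (l : List (Finset G)) : MeasurableSet (failSet δ l) := by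
  have : failSet δ l = ⋂ Q ∈ {Q | Q ∈ l}, ⋃ q ∈ Q, {x : G → ℝ | δ ≤ x q} := by
    ext x; simp [failSet]
  rw [this]
  refine MeasurableSet.biInter (List.finite_toSet l).countable ?_
  intro Q _
  refine Finset.measurableSet_biUnion _ ?_
  intro q _
  exact measurableSet_le measurable_const (measurable_pi_apply q)

lemma bern_failSet (δ : ℝ) (h0 : 0 ≤ δ) (h1 : δ ≤ 1) (m : ℕ) (l : List (Finset G))
    (hl : l.Pairwise Disjoint) (hm : ∀ Q ∈ l, Q.card ≤ m) :
    bern G (failSet δ l) ≤ ENNReal.ofReal (1 - δ ^ m) ^ l.length := by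
  classical
  induction l with
  | nil => simp only [List.length_nil, pow_zero]; exact prob_le_one
  | cons Q l ih =>
    rw [List.pairwise_cons] at hl
    have ih' := ih hl.2 (fun Q' hQ' => hm Q' (List.mem_cons_of_mem _ hQ'))
    set T : Finset G := l.toFinset.biUnion id with hT
    have hdisj : Disjoint Q T := by
      rw [hT, Finset.disjoint_biUnion_right]
      intro Q' hQ'
      exact hl.1 Q' (by simpa using hQ')
    set U : Set (Q → ℝ) := {y | ∃ q : Q, δ ≤ y q} with hU
    set V : Set (T → ℝ) := {y | ∀ Q' ∈ l, ∃ t : T, (t : G) ∈ Q' ∧ δ ≤ y t} with hV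
    have hUm : MeasurableSet U := by
      have : U = ⋃ q : Q, {y | δ ≤ y q} := by ext y; simp [hU]
      rw [this]
      exact MeasurableSet.iUnion fun q => measurableSet_le measurable_const (measurable_pi_apply q)
    have hVm : MeasurableSet V := by
      have : V = ⋂ Q' ∈ {Q' | Q' ∈ l}, ⋃ t : T, {y | (t : G) ∈ Q' ∧ δ ≤ y t} := by
        ext y; simp [hV]
      rw [this]
      refine MeasurableSet.biInter (List.finite_toSet l).countable ?_
      intro Q' _
      refine MeasurableSet.iUnion fun t => ?_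
      by_cases ht : (t : G) ∈ Q'
      · simp only [ht, true_and]
        exact measurableSet_le measurable_const (measurable_pi_apply t)
      · simp [ht]
    have e1 : failSet δ (Q :: l) = {x | (fun s : Q => x s) ∈ U} ∩ {x | (fun t : T => x t) ∈ V} := by
      ext x
      simp only [failSet, List.mem_cons, forall_eq_or_imp, Set.mem_inter_iff, hU, hV,
        Set.mem_ofPred_eq]
      constructor
      · rintro ⟨⟨q, hq, hx⟩, h⟩
        refine ⟨⟨⟨q, hq⟩, hx⟩, ?_⟩
        intro Q' hQ'
        obtain ⟨q', hq', hx'⟩ := h Q' hQ'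
        exact ⟨⟨q', by rw [hT, Finset.mem_biUnion]; exact ⟨Q', by simpa using hQ', hq'⟩⟩, hq', hx'⟩
      · rintro ⟨⟨q, hx⟩, h⟩
        refine ⟨⟨q, q.2, hx⟩, ?_⟩
        intro Q' hQ'
        obtain ⟨t, ht, hx'⟩ := h Q' hQ'
        exact ⟨t, ht, hx'⟩
    have e2 : {x : G → ℝ | (fun t : T => x t) ∈ V} = failSet δ l := by
      ext x
      simp only [failSet, hV, Set.mem_ofPred_eq]
      constructor
      · intro h Q' hQ'
        obtain ⟨t, ht, hx'⟩ := h Q' hQ'
        exact ⟨t, ht, hx'⟩
      · intro h Q' hQ'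
        obtain ⟨q', hq', hx'⟩ := h Q' hQ'
        exact ⟨⟨q', by rw [hT, Finset.mem_biUnion]; exact ⟨Q', by simpa using hQ', hq'⟩⟩, hq', hx'⟩
    have e3 : {x : G → ℝ | (fun s : Q => x s) ∈ U} = {x | ∀ t ∈ Q, x t < δ}ᶜ := by
      ext x; simp [hU]
    have e4 : bern G {x : G → ℝ | (fun s : Q => x s) ∈ U} ≤ ENNReal.ofReal (1 - δ ^ m) := by
      have hms : MeasurableSet {x : G → ℝ | ∀ t ∈ Q, x t < δ} := by
        have : {x : G → ℝ | ∀ t ∈ Q, x t < δ} = ⋂ t ∈ Q, {x | x t < δ} := by ext x; simp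
        rw [this]
        exact Finset.measurableSet_biInter _ fun t _ =>
          measurableSet_lt (measurable_pi_apply t) measurable_const
      rw [e3, prob_compl_eq_one_sub hms, bern_all_lt Q h0 h1, ← ENNReal.ofReal_pow h0,
        ← ENNReal.ofReal_one, ← ENNReal.ofReal_sub _ (by positivity)]
      apply ENNReal.ofReal_le_ofReal
      have : δ ^ m ≤ δ ^ Q.card := pow_le_pow_of_le_one h0 h1 (hm Q (by simp))
      linarith
    rw [e1, bern_indep Q T hdisj U V hUm hVm, e2, List.length_cons, pow_succ, mul_comm]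
    exact mul_le_mul' ih' e4

end Pool.Agent.Lib.MP_7e9760_al
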