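import Mathlib

/-!
Malnormal subgroups of finite groups: elementary counting.
-/

namespace Pool.Agent.Lib.MP_7e9760_al

universe u

variable {Q : Type u} [Group Q]

/-- `D` is malnormal: a conjugate of `D` by an element outside `D` meets `D` trivially. -/
def Malnormal (D : Subgroup Q) : Prop := ∀ d ∈ D, d ≠ 1 → ∀ g, g⁻¹ * d * g ∈ D → g ∈ D

/-- The nontrivial elements conjugate into `D`. -/
def conjSet (D : Subgroup Q) : Set Q := {g | g ≠ 1 ∧ ∃ q, q⁻¹ * g * q ∈ D}

lemma conj_ne_one {g q : Q} (hg : g ≠ 1) : q⁻¹ * g * q ≠ 1 := by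
  intro h
  apply hg
  have : g = q * (q⁻¹ * g * q) * q⁻¹ := by group
  rw [this, h]; group

lemma card_conjSet [Finite Q] {D : Subgroup Q} (hD : Malnormal D) :
    (conjSet D).ncard * Nat.card D = Nat.card Q * (Nat.card D - 1) := by
  classical
  have hch : ∀ g : conjSet D, ∃ q, q⁻¹ * (g : Q) * q ∈ D := fun g => g.2.2
  choose q0 hq0 using hch
  let f : conjSet D × D → Q × {d : D // d ≠ 1} := fun p =>
    (q0 p.1 * (p.2 : Q), ⟨⟨(p.2 : Q)⁻¹ * ((q0 p.1)⁻¹ * (p.1 : Q) * q0 p.1) * p.2,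
      D.mul_mem (D.mul_mem (D.inv_mem p.2.2) (hq0 p.1)) p.2.2⟩, by
        intro h
        have h1 := congrArg Subtype.val h
        simp only [OneMemClass.coe_one] at h1
        exact conj_ne_one (conj_ne_one p.1.2.1) h1⟩)
  have hf : Function.Bijective f := by
    constructor
    · rintro ⟨g, h⟩ ⟨g', h'⟩ heq
      simp only [f, Prod.mk.injEq, Subtype.mk.injEq] at heq
      obtain ⟨h1, h2⟩ := heq
      have hgg : (g : Q) = g' := by
        have e1 : (g : Q) = (q0 g * h) * ((h : Q)⁻¹ * ((q0 g)⁻¹ * (g : Q) * q0 g) * h) *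
            (q0 g * h)⁻¹ := by group
        have e2 : (g' : Q) = (q0 g' * h') * ((h' : Q)⁻¹ * ((q0 g')⁻¹ * (g' : Q) * q0 g') * h') *
            (q0 g' * h')⁻¹ := by group
        rw [e1, e2, h2, h1]
      have hgg' : g = g' := Subtype.ext hgg
      subst hgg'
      have : (h : Q) = h' := mul_left_cancel h1
      rw [Subtype.ext this]
    · rintro ⟨q, ⟨d, hd⟩⟩
      have hd1 : (d : Q) ≠ 1 := fun h => hd (Subtype.ext h)
      have hmem : q * d * q⁻¹ ∈ conjSet D := by
        refine ⟨?_, q, ?_⟩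
        · have := conj_ne_one (g := (d : Q)) (q := q⁻¹) hd1
          simpa using this
        · have : q⁻¹ * (q * d * q⁻¹) * q = d := by group
          rw [this]; exact d.2
      set g : conjSet D := ⟨q * d * q⁻¹, hmem⟩ with hg
      have hh : (q0 g)⁻¹ * q ∈ D := by
        apply hD ((q0 g)⁻¹ * (g : Q) * q0 g) (hq0 g) (conj_ne_one g.2.1)
        have : ((q0 g)⁻¹ * q)⁻¹ * ((q0 g)⁻¹ * (g : Q) * q0 g) * ((q0 g)⁻¹ * q) = d := by
          rw [hg]; group
        rw [this]; exact d.2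
      refine ⟨(g, ⟨(q0 g)⁻¹ * q, hh⟩), ?_⟩
      simp only [f, Prod.mk.injEq, Subtype.mk.injEq]
      refine ⟨by group, ?_⟩
      apply Subtype.ext
      simp only [hg]
      group
  have h1 := Nat.card_congr (Equiv.ofBijective f hf)
  rw [Nat.card_prod, Nat.card_prod] at h1
  have h2 : Nat.card {d : D // d ≠ 1} = Nat.card D - 1 := by
    have := Fintype.ofFinite D
    rw [Nat.card_eq_fintype_card, Nat.card_eq_fintype_card]
    exact Set.card_ne_eq (1 : D)
  rw [h2] at h1
  exact h1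

lemma card_arith [Finite Q] {D : Subgroup Q} (hD : Malnormal D) (hne : D ≠ ⊥) (hnt : D ≠ ⊤) :
    Nat.card Q ≤ 2 * (conjSet D).ncard ∧ (conjSet D).ncard + 2 ≤ Nat.card Q := by
  have h := card_conjSet hD
  set c := (conjSet D).ncard
  set m := Nat.card D with hm
  set q := Nat.card Q with hq
  have hm2 : 2 ≤ m := by
    have : 1 < m := by
      rw [hm]
      exact (Subgroup.one_lt_card_iff_ne_bot D).2 hne
    exact this
  have hidx : m * D.index = q := Subgroup.card_mul_index D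
  have hidx2 : 2 ≤ D.index := by
    have h0 : D.index ≠ 0 := Subgroup.index_ne_zero_of_finite
    have h1 : D.index ≠ 1 := fun h => hnt (Subgroup.index_eq_one.1 h)
    omega
  clear hm hq
  clear_value c m q
  obtain ⟨n, rfl⟩ : ∃ n, m = n + 2 := ⟨m - 2, by omega⟩
  have e : n + 2 - 1 = n + 1 := by omega
  rw [e] at h
  constructor
  · have : q * (n + 2) ≤ 2 * c * (n + 2) := by nlinarith
    exact Nat.le_of_mul_le_mul_right this (by omega)
  · have hq2 : 2 * (n + 2) ≤ q := by rw [← hidx]; nlinarith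
    have : (c + 2) * (n + 2) ≤ q * (n + 2) := by nlinarith
    exact Nat.le_of_mul_le_mul_right this (by omega)

lemma exists_not_conj [Finite Q] {D : Subgroup Q} (hD : Malnormal D) (hne : D ≠ ⊥)
    (hnt : D ≠ ⊤) : ∃ k : Q, k ≠ 1 ∧ ∀ q, q⁻¹ * k * q ∉ D := by
  have h := (card_arith hD hne hnt).2
  by_contra hcon
  push Not at hcon
  have hsub : (Set.univ : Set Q) ⊆ insert 1 (conjSet D) := by
    intro k _
    by_cases hk : k = 1
    · exact Or.inl hk
    · exact Or.inr ⟨hk, hcon k hk⟩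
  have h1 := Set.ncard_le_ncard hsub (Set.toFinite _)
  rw [Set.ncard_univ] at h1
  have h2 := Set.ncard_insert_le (1 : Q) (conjSet D)
  omega

lemma conjSets_meet [Finite Q] {D D' : Subgroup Q} (hD : Malnormal D) (hne : D ≠ ⊥)
    (hnt : D ≠ ⊤) (hD' : Malnormal D') (hne' : D' ≠ ⊥) (hnt' : D' ≠ ⊤) :
    ∃ e : Q, e ≠ 1 ∧ (∃ q, q⁻¹ * e * q ∈ D) ∧ ∃ q, q⁻¹ * e * q ∈ D' := by
  have h1 := (card_arith hD hne hnt).1
  have h2 := (card_arith hD' hne' hnt').1
  by_contra hcon
  have hdisj : Disjoint (conjSet D) (conjSet D') := by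
    rw [Set.disjoint_left]
    intro e he he'
    exact hcon ⟨e, he.1, he.2, he'.2⟩
  have h3 := Set.ncard_union_eq hdisj (Set.toFinite _) (Set.toFinite _)
  have hsub : conjSet D ∪ conjSet D' ⊆ {1}ᶜ := by
    rintro e (he | he)
    · exact he.1
    · exact he.1
  have h4 := Set.ncard_le_ncard hsub (Set.toFinite _)
  have h5 : ({1}ᶜ : Set Q).ncard + 1 = Nat.card Q := by
    have := Set.ncard_add_ncard_compl ({1} : Set Q)
    rw [Set.ncard_singleton] at this
    omega
  omega

end Pool.Agent.Lib.MP_7e9760_al
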