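import Pool.Agent.Lib.MP_7e9760_al.Bern

/-!
Graphs on the space of labellings whose edges join `x` to its translates.
-/

open MeasureTheory Set
open scoped ENNReal

namespace Pool.Agent.Lib.MP_7e9760_al

universe u

set_option linter.unusedSectionVars false

variable {G : Type u} [Group G]

/-- The translate of a labelling: the labelling seen from the vertex `g`. -/
def sh (g : G) (x : G → ℝ) : G → ℝ := fun h => x (h * g)

@[simp] lemma sh_apply (g h : G) (x : G → ℝ) : sh g x h = x (h * g) := rfl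

@[simp] lemma sh_one (x : G → ℝ) : sh 1 x = x := by ext; simp

lemma sh_sh (g h : G) (x : G → ℝ) : sh g (sh h x) = sh (g * h) x := by
  ext k; simp [mul_assoc]

lemma sh_measurable (g : G) : Measurable (sh g) := by unfold sh; fun_prop

lemma sh_mp (g : G) : MeasurePreserving (sh g) (bern G) (bern G) :=
  bern_reindex (mul_left_injective g)

lemma ae_sh {p : (G → ℝ) → Prop} (g : G) (h : ∀ᵐ x ∂(bern G), p x) :
    ∀ᵐ x ∂(bern G), p (sh g x) :=
  (sh_mp g).quasiMeasurePreserving.ae h

/-- A graph: for every `g` the set of points `x` joined to `g x`. -/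
abbrev Gph (G : Type u) := G → Set (G → ℝ)

/-- `x` is joined to `y` by an oriented edge. -/
def Adj (A : Gph G) (x y : G → ℝ) : Prop := ∃ g, x ∈ A g ∧ sh g x = y

/-- `x` and `y` are in the same component. -/
def Cn (A : Gph G) : (G → ℝ) → (G → ℝ) → Prop := Relation.EqvGen (Adj A)

lemma Cn.refl (A : Gph G) (x : G → ℝ) : Cn A x x := Relation.EqvGen.refl x
lemma Cn.symm {A : Gph G} {x y : G → ℝ} (h : Cn A x y) : Cn A y x := Relation.EqvGen.symm _ _ h
lemma Cn.trans {A : Gph G} {x y z : G → ℝ} (h : Cn A x y) (h' : Cn A y z) : Cn A x z :=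
  Relation.EqvGen.trans _ _ _ h h'

lemma Cn.edge {A : Gph G} {x : G → ℝ} {g : G} (h : x ∈ A g) : Cn A x (sh g x) :=
  Relation.EqvGen.rel _ _ ⟨g, h, rfl⟩

lemma Cn.mono {A B : Gph G} (h : A ≤ B) {x y : G → ℝ} (hxy : Cn A x y) : Cn B x y := by
  induction hxy with
  | rel a b hab =>
    obtain ⟨g, hg, hb⟩ := hab
    exact Relation.EqvGen.rel _ _ ⟨g, h g hg, hb⟩
  | refl a => exact Relation.EqvGen.refl a
  | symm a b _ ih => exact Relation.EqvGen.symm _ _ ih
  | trans a b c _ _ ih1 ih2 => exact Relation.EqvGen.trans _ _ _ ih1 ih2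

/-- The group of all `g` such that almost every `x` is connected to `g x`. -/
def conn (A : Gph G) : Subgroup G where
  carrier := {g | ∀ᵐ x ∂(bern G), Cn A x (sh g x)}
  one_mem' := by
    rw [Set.mem_ofPred_eq]
    refine Filter.Eventually.of_forall fun x => ?_
    rw [sh_one]; exact Cn.refl A x
  mul_mem' := by
    intro a b ha hb
    rw [Set.mem_ofPred_eq] at *
    have ha' := ae_sh b ha
    filter_upwards [ha', hb] with x h1 h2
    rw [sh_sh] at h1
    exact h2.trans h1
  inv_mem' := by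
    intro a ha
    rw [Set.mem_ofPred_eq] at *
    have ha' := ae_sh a⁻¹ ha
    filter_upwards [ha'] with x h1
    rw [sh_sh] at h1
    simp only [mul_inv_cancel, sh_one] at h1
    exact h1.symm

lemma mem_conn {A : Gph G} {g : G} : g ∈ conn A ↔ ∀ᵐ x ∂(bern G), Cn A x (sh g x) := Iff.rfl

lemma conn_mono {A B : Gph G} (h : A ≤ B) : conn A ≤ conn B := by
  intro g hg
  filter_upwards [mem_conn.1 hg] with x hx
  exact hx.mono h

/-- The total measure of the edges. -/
noncomputable def gcost (A : Gph G) : ℝ≥0∞ := ∑' g, bern G (A g)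

lemma gcost_sup_le (A B : Gph G) : gcost (A ⊔ B) ≤ gcost A + gcost B := by
  unfold gcost
  rw [← ENNReal.tsum_add]
  refine ENNReal.tsum_le_tsum fun g => ?_
  exact measure_union_le _ _

lemma gcost_iSup_le (D : ℕ → Gph G) : gcost (⨆ k, D k) ≤ ∑' k, gcost (D k) := by
  unfold gcost
  rw [ENNReal.tsum_comm]
  refine ENNReal.tsum_le_tsum fun g => ?_
  have : (⨆ k, D k) g = ⋃ k, D k g := by simp [iSup_apply]
  rw [this]
  exact measure_iUnion_le _

/-- All edge sets are measurable. -/
def MeasG (A : Gph G) : Prop := ∀ g, MeasurableSet (A g)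

lemma MeasG.sup {A B : Gph G} (hA : MeasG A) (hB : MeasG B) : MeasG (A ⊔ B) :=
  fun g => (hA g).union (hB g)

lemma MeasG.iSup {D : ℕ → Gph G} (h : ∀ k, MeasG (D k)) : MeasG (⨆ k, D k) := by
  intro g
  have : (⨆ k, D k) g = ⋃ k, D k g := by simp [iSup_apply]
  rw [this]
  exact MeasurableSet.iUnion fun k => h k g

/-- The graph with edges from `x` to `z x` for the points `x` of `Y`. -/
def single (z : G) (Y : Set (G → ℝ)) : Gph G := fun g => {x | g = z ∧ x ∈ Y}

lemma single_meas (z : G) {Y : Set (G → ℝ)} (hY : MeasurableSet Y) : MeasG (single z Y) := by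
  intro g
  unfold single
  by_cases h : g = z
  · simpa [h] using hY
  · simp [h]

lemma gcost_single (z : G) (Y : Set (G → ℝ)) : gcost (single z Y) = bern G Y := by
  unfold gcost single
  rw [tsum_eq_single z]
  · simp
  · intro g hg; simp [hg]

lemma mem_single {z : G} {Y : Set (G → ℝ)} {x : G → ℝ} (hx : x ∈ Y) : x ∈ single z Y z :=
  ⟨rfl, hx⟩

/-- Adding countably many graphs one after the other. -/
lemma assembly (P : ℕ → Gph G → Prop) (ε : ℕ → ℝ≥0∞) (A0 : Gph G) (hm : MeasG A0)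
    (hA0 : P 0 A0)
    (hstep : ∀ k A, P k A → ∃ D : Gph G, MeasG D ∧ gcost D ≤ ε k ∧ P (k + 1) (A ⊔ D))
    (e : ℕ → G) (he : Function.Surjective e) (hP : ∀ k A, P (k + 1) A → e k ∈ conn A) :
    ∃ A : Gph G, MeasG A ∧ gcost A ≤ gcost A0 + ∑' k, ε k ∧ ∀ g, g ∈ conn A := by
  classical
  let As : (k : ℕ) → {A : Gph G // P k A} := fun k =>
    Nat.rec (motive := fun k => {A : Gph G // P k A}) ⟨A0, hA0⟩
      (fun k A => ⟨A.1 ⊔ (hstep k A.1 A.2).choose, (hstep k A.1 A.2).choose_spec.2.2⟩) k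
  let D : ℕ → Gph G := fun k => (hstep k (As k).1 (As k).2).choose
  have hD : ∀ k, MeasG (D k) ∧ gcost (D k) ≤ ε k := fun k =>
    ⟨(hstep k (As k).1 (As k).2).choose_spec.1, (hstep k (As k).1 (As k).2).choose_spec.2.1⟩
  have hs : ∀ k, (As (k + 1)).1 = (As k).1 ⊔ D k := fun k => rfl
  refine ⟨A0 ⊔ ⨆ k, D k, hm.sup (MeasG.iSup fun k => (hD k).1), ?_, ?_⟩
  · refine (gcost_sup_le _ _).trans ?_
    gcongr
    exact (gcost_iSup_le D).trans (ENNReal.tsum_le_tsum fun k => (hD k).2)
  · intro g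
    obtain ⟨k, rfl⟩ := he g
    have hle : ∀ k, (As k).1 ≤ A0 ⊔ ⨆ k, D k := by
      intro k
      induction k with
      | zero => exact le_sup_left
      | succ k ih =>
        rw [hs]
        exact sup_le ih ((le_iSup D k).trans le_sup_right)
    exact conn_mono (hle (k + 1)) (hP k _ (As (k + 1)).2)

end Pool.Agent.Lib.MP_7e9760_al
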