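import Pool.Agent.Lib.MP_7e9760_al.Ultra

/-!
An infinite group all of whose two-generated subgroups are finite has arbitrarily large finite
subgroups.
-/

namespace Pool.Agent.Lib.MP_7e9760_al

universe u

/-- The quotient by a finite central subgroup outside which centralizers are finite. -/
lemma quotient_case {C : Type u} [Group C] [Infinite C] (Z : Subgroup C) [Z.Normal] [Finite Z]
    (hcent : ∀ x : C, x ∉ Z → (Subgroup.centralizer {x} : Set C).Finite) (M : ℕ)
    (h2 : ∀ a b : C, Finite (Subgroup.closure ({a, b} : Set C)) ∧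
      Nat.card (Subgroup.closure ({a, b} : Set C)) ≤ M) : False := by
  classical
  have hinf : Infinite (C ⧸ Z) := by
    by_contra hcon
    rw [not_infinite_iff_finite] at hcon
    have : Finite C := Finite.of_equiv _ (Subgroup.groupEquivQuotientProdSubgroup (s := Z)).symm
    exact not_finite C
  refine no_finite_centralizers (G := C ⧸ Z) ?_ M ?_
  · intro x hx
    obtain ⟨x, rfl⟩ := QuotientGroup.mk'_surjective Z x
    have hxZ : x ∉ Z := by
      intro h
      apply hx
      rwa [QuotientGroup.mk'_apply, QuotientGroup.eq_one_iff]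
    have hfin : (⋃ z ∈ (Z : Set C), {g : C | g * x * g⁻¹ = z * x}).Finite := by
      apply Set.Finite.biUnion
      · exact Set.toFinite _
      · intro z _
        exact finite_conj (hcent x hxZ) _
    refine (hfin.image (QuotientGroup.mk' Z)).subset ?_
    intro g hg
    obtain ⟨g, rfl⟩ := QuotientGroup.mk'_surjective Z g
    rw [SetLike.mem_coe, Subgroup.mem_centralizer_iff] at hg
    have h1 := hg (QuotientGroup.mk' Z x) rfl
    rw [← map_mul, ← map_mul] at h1
    refine ⟨g, ?_, rfl⟩
    rw [Set.mem_iUnion₂]
    have h3 : g * x * g⁻¹ * x⁻¹ ∈ Z := by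
      have h4 : QuotientGroup.mk' Z (g * x * g⁻¹ * x⁻¹) = 1 := by
        have : g * x * g⁻¹ * x⁻¹ = (g * x) * (x * g)⁻¹ := by group
        rw [this, map_mul, map_inv, h1]; simp
      rwa [QuotientGroup.mk'_apply, QuotientGroup.eq_one_iff] at h4
    refine ⟨_, h3, ?_⟩
    rw [Set.mem_ofPred_eq]; group
  · intro a b
    obtain ⟨a, rfl⟩ := QuotientGroup.mk'_surjective Z a
    obtain ⟨b, rfl⟩ := QuotientGroup.mk'_surjective Z b
    obtain ⟨hf, hcard⟩ := h2 a b
    have hmap : Subgroup.closure ({QuotientGroup.mk' Z a, QuotientGroup.mk' Z b} : Set (C ⧸ Z)) =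
        (Subgroup.closure ({a, b} : Set C)).map (QuotientGroup.mk' Z) := by
      rw [MonoidHom.map_closure, Set.image_pair]
    rw [hmap]
    have hs : Function.Surjective ((QuotientGroup.mk' Z).subgroupMap
        (Subgroup.closure ({a, b} : Set C))) := MonoidHom.subgroupMap_surjective _ _
    exact ⟨Finite.of_surjective _ hs, (Nat.card_le_card_of_surjective _ hs).trans hcard⟩

theorem exists_large_finite {G : Type u} [Group G] [Infinite G]
    (h2 : ∀ a b : G, Finite (Subgroup.closure ({a, b} : Set G))) (M : ℕ) :
    ∃ B : Subgroup G, Finite B ∧ M < Nat.card B := by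
  classical
  by_contra hcon
  push Not at hcon
  let S : Set ℕ := {n | ∃ A : Subgroup G, Finite A ∧
    (Subgroup.centralizer (A : Set G) : Set G).Infinite ∧ Nat.card A = n}
  have hSne : S.Nonempty := by
    refine ⟨Nat.card (⊥ : Subgroup G), ⊥, inferInstance, ?_, rfl⟩
    have : Subgroup.centralizer ((⊥ : Subgroup G) : Set G) = ⊤ := by
      rw [eq_top_iff]
      intro g _
      rw [Subgroup.mem_centralizer_iff]
      rintro a ha
      rw [SetLike.mem_coe, Subgroup.mem_bot] at ha
      rw [ha]; simp
    rw [this]
    simpa using Set.infinite_univ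
  have hSb : BddAbove S := ⟨M, by rintro n ⟨A, hA, _, rfl⟩; exact hcon A hA⟩
  obtain ⟨A, hAf, hAc, hAn⟩ := Nat.sSup_mem hSne hSb
  have hmax : ∀ A' : Subgroup G, Finite A' →
      (Subgroup.centralizer (A' : Set G) : Set G).Infinite → Nat.card A' ≤ Nat.card A := by
    intro A' h1 h2
    rw [hAn]
    exact le_csSup hSb ⟨A', h1, h2, rfl⟩
  set C : Subgroup G := Subgroup.centralizer (A : Set G) with hC
  have hCinf : Infinite C := hAc.to_subtype
  set Z : Subgroup C := A.subgroupOf C with hZ
  have hZf : Finite Z := by
    have hinj : Function.Injective (fun z : Z => (⟨((z : C) : G), z.2⟩ : A)) := by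
      intro a b hab
      have := congrArg (fun x : A => (x : G)) hab
      exact Subtype.ext (Subtype.ext this)
    exact Finite.of_injective _ hinj
  have hZn : Z.Normal := by
    refine ⟨?_⟩
    intro n hn g
    have h1 : (n : G) * g = g * n := Subgroup.mem_centralizer_iff.1 g.2 _ hn
    have h3 : g * n * g⁻¹ = n := by
      apply Subtype.ext
      push_cast
      rw [← h1]; group
    rw [h3]; exact hn
  refine quotient_case Z ?_ M ?_
  · intro x hxZ
    have hxA : (x : G) ∉ A := by
      intro h; exact hxZ (by rw [hZ, Subgroup.mem_subgroupOf]; exact h)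
    by_contra hinf
    have hcomm : ∀ (m : A) (n : Subgroup.zpowers (x : G)),
        Commute (A.subtype m) ((Subgroup.zpowers (x : G)).subtype n) := by
      rintro m ⟨n, k, rfl⟩
      have : Commute (m : G) (x : G) := Subgroup.mem_centralizer_iff.1 x.2 _ m.2
      exact this.zpow_right k
    have hfz : Finite (Subgroup.zpowers (x : G)) := by
      have := h2 (x : G) (x : G)
      rw [Set.pair_eq_singleton, ← Subgroup.zpowers_eq_closure] at this
      exact this
    set A' : Subgroup G := (MonoidHom.noncommCoprod A.subtype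
      (Subgroup.zpowers (x : G)).subtype hcomm).range with hA'
    have hA'f : Finite A' := by
      rw [hA']
      exact Finite.of_surjective _ (MonoidHom.rangeRestrict_surjective _)
    have hAA' : A ≤ A' := by
      intro a ha
      exact ⟨(⟨a, ha⟩, 1), by simp⟩
    have hxA' : (x : G) ∈ A' := ⟨(1, ⟨x, Subgroup.mem_zpowers _⟩), by simp⟩
    have hinf' : (Subgroup.centralizer (A' : Set G) : Set G).Infinite := by
      have h3 : (Subtype.val '' (Subgroup.centralizer {x} : Set C)).Infinite :=
        Set.Infinite.image Subtype.val_injective.injOn hinf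
      refine h3.mono ?_
      rintro _ ⟨c, hc, rfl⟩
      rw [SetLike.mem_coe, Subgroup.mem_centralizer_iff] at hc ⊢
      rintro _ ⟨⟨a, ⟨n, k, rfl⟩⟩, rfl⟩
      have e1 : Commute (a : G) (c : G) := Subgroup.mem_centralizer_iff.1 c.2 _ a.2
      have e2 : Commute (x : G) (c : G) := congrArg Subtype.val (hc x rfl)
      have e3 : Commute ((x : G) ^ k) (c : G) := e2.zpow_left k
      have e4 : Commute ((a : G) * (x : G) ^ k) (c : G) := e1.mul_left e3
      simpa using e4.eq
    have hle := hmax A' hA'f hinf'
    have heq := Subgroup.eq_of_le_of_card_ge hAA' hle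
    rw [heq] at hxA
    exact hxA hxA'
  · intro a b
    have hmap : (Subgroup.closure ({a, b} : Set C)).map C.subtype =
        Subgroup.closure ({(a : G), (b : G)} : Set G) := by
      rw [MonoidHom.map_closure, Set.image_pair]; rfl
    have hf : Finite ((Subgroup.closure ({a, b} : Set C)).map C.subtype) := by
      rw [hmap]; exact h2 a b
    let e : Subgroup.closure ({a, b} : Set C) ≃
        (Subgroup.closure ({a, b} : Set C)).map C.subtype :=
      ((Subgroup.closure ({a, b} : Set C)).equivMapOfInjective C.subtype
        C.subtype_injective).toEquiv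
    refine ⟨Finite.of_equiv _ e.symm, ?_⟩
    rw [Nat.card_congr e]
    exact hcon _ hf

end Pool.Agent.Lib.MP_7e9760_al
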