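import Pool.Agent.Lib.MP_7e9760_al.Graph

/-!
The percolation step: in a group of bounded exponent, if the group of connected elements is large,
then any further element can be connected at a small cost.
-/

open MeasureTheory Set
open scoped ENNReal

namespace Pool.Agent.Lib.MP_7e9760_al

universe u

variable {G : Type u} [Group G]

/-- The edges from `q` to `z q`, `q ∈ Q`, together with the left cosets of `H` connect `1`
to `z`. -/
def Closes (H : Subgroup G) (z : G) (Q : Finset G) : Prop :=
  ∀ R : G → G → Prop, Equivalence R → (∀ g, ∀ h ∈ H, R g (h * g)) → (∀ q ∈ Q, R q (z * q)) →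
    R 1 z

open Classical in
/-- The set of group elements at which an edge is used. -/
noncomputable def closingSet (a b : G) (d : ℕ) : Finset G :=
  (Finset.Icc 1 (d - 2)).image (fun j => a ^ j) ∪ (Finset.Icc 1 (d - 1)).image (fun i => b ^ i * a⁻¹)

lemma closingSet_card (a b : G) (d : ℕ) : (closingSet a b d).card ≤ 2 * d := by
  classical
  unfold closingSet
  refine (Finset.card_union_le _ _).trans ?_
  have h1 := Finset.card_image_le (s := Finset.Icc 1 (d - 2)) (f := fun j => a ^ j)
  have h2 := Finset.card_image_le (s := Finset.Icc 1 (d - 1)) (f := fun i => b ^ i * a⁻¹)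
  simp only [Nat.card_Icc] at h1 h2
  have h3 : (Finset.image (fun j => a ^ j) (Finset.Icc 1 (d - 2))).card +
    (Finset.image (fun i => b ^ i * a⁻¹) (Finset.Icc 1 (d - 1))).card ≤ 2 * d := by omega
  convert h3 using 3

lemma closes_closingSet {H : Subgroup G} {z w₀ w : G} (h0 : w₀ ∈ H) (hw : w ∈ H) {d : ℕ}
    (hd : 2 ≤ d) (h : (w₀ * z) ^ d = (w * z) ^ d) :
    Closes H z (closingSet (w₀ * z) (w * z) d) := by
  classical
  intro R hR hH hQ
  set a := w₀ * z with ha
  set b := w * z with hb
  have ha_step : ∀ q ∈ closingSet a b d, R q (a * q) := by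
    intro q hq
    refine hR.trans (hQ q hq) ?_
    have := hH (z * q) w₀ h0
    rw [ha, mul_assoc]; exact this
  have hb_step : ∀ q ∈ closingSet a b d, R q (b * q) := by
    intro q hq
    refine hR.trans (hQ q hq) ?_
    have := hH (z * q) w hw
    rw [hb, mul_assoc]; exact this
  -- from a to a^(d-1)
  have h1 : ∀ j, 1 ≤ j → j ≤ d - 1 → R a (a ^ j) := by
    intro j hj
    induction j, hj using Nat.le_induction with
    | base => intro _; rw [pow_one]; exact hR.refl a
    | succ j hj ih =>
      intro hjd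
      refine hR.trans (ih (by omega)) ?_
      have hmem : a ^ j ∈ closingSet a b d := by
        unfold closingSet
        apply Finset.mem_union_left
        rw [Finset.mem_image]
        exact ⟨j, by rw [Finset.mem_Icc]; omega, rfl⟩
      have := ha_step _ hmem
      rwa [← pow_succ'] at this
  -- from b a⁻¹ to b^d a⁻¹
  have h2 : ∀ i, 1 ≤ i → i ≤ d → R (b * a⁻¹) (b ^ i * a⁻¹) := by
    intro i hi
    induction i, hi using Nat.le_induction with
    | base => intro _; rw [pow_one]; exact hR.refl _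
    | succ i hi ih =>
      intro hid
      refine hR.trans (ih (by omega)) ?_
      have hmem : b ^ i * a⁻¹ ∈ closingSet a b d := by
        unfold closingSet
        apply Finset.mem_union_right
        rw [Finset.mem_image]
        exact ⟨i, by rw [Finset.mem_Icc]; omega, rfl⟩
      have := hb_step _ hmem
      rwa [← mul_assoc, ← pow_succ'] at this
  have h3 : R 1 (b * a⁻¹) := by
    have := hH 1 (w * w₀⁻¹) (H.mul_mem hw (H.inv_mem h0))
    have e : b * a⁻¹ = w * w₀⁻¹ * 1 := by rw [ha, hb]; group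
    rw [e]; exact this
  have h4 : R z a := hH z w₀ h0
  have h5 := h1 (d - 1) (by omega) le_rfl
  have h6 := h2 d (by omega) le_rfl
  have e : b ^ d * a⁻¹ = a ^ (d - 1) := by
    rw [← h]
    obtain ⟨k, rfl⟩ : ∃ k, d = k + 1 := ⟨d - 1, by omega⟩
    rw [pow_succ]; simp
  rw [e] at h6
  exact hR.trans h3 (hR.trans h6 (hR.trans (hR.symm h5) (hR.symm h4)))

/-- There is a closing set avoiding a given small set. -/
lemma exists_closing_avoiding {N : ℕ} (hN : 1 ≤ N) (hexp : ∀ g : G, g ^ N = 1) (H : Subgroup G)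
    (z : G) {C : ℕ} (hC : 2 ≤ C) {W : Finset G} (hW : ∀ w ∈ W, w ∈ H) (hcard : C ^ N ≤ W.card)
    (U : Finset G) (hU : N * U.card < C) :
    ∃ Q : Finset G, Q.card ≤ 2 * N ∧ Closes H z Q ∧ Disjoint Q U := by
  classical
  let P : ℕ → Prop := fun d => 1 ≤ d ∧ ∃ W : Finset G, (∀ w ∈ W, w ∈ H) ∧ C ^ d ≤ W.card ∧
    ∀ w ∈ W, ∀ w' ∈ W, (w * z) ^ d = (w' * z) ^ d
  have hPN : P N := ⟨hN, W, hW, hcard, fun w _ w' _ => by rw [hexp, hexp]⟩
  have hex : ∃ d, P d := ⟨N, hPN⟩
  set d := Nat.find hex with hd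
  obtain ⟨hd1, V, hVH, hVcard, hVc⟩ := Nat.find_spec hex
  have hdN : d ≤ N := Nat.find_min' hex hPN
  rw [← hd] at hd1 hVcard hVc
  have hmin : ∀ j, 1 ≤ j → j < d → ∀ V' : Finset G, (∀ w ∈ V', w ∈ H) →
      (∀ w ∈ V', ∀ w' ∈ V', (w * z) ^ j = (w' * z) ^ j) → V'.card < C ^ j := by
    intro j hj hjd V' hV' hc
    by_contra hcon
    push Not at hcon
    exact Nat.find_min hex hjd ⟨hj, V', hV', hcon, hc⟩
  have hd2 : 2 ≤ d := by
    by_contra hcon
    have hd' : d = 1 := by omega
    rw [hd'] at hVcard hVc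
    simp only [pow_one] at hVcard hVc
    have : V.card ≤ 1 := by
      rw [Finset.card_le_one]
      intro a ha b hb
      exact mul_right_cancel (hVc a ha b hb)
    omega
  -- the number of w in V with (w z)^j in U' is small
  have hsmall : ∀ (U' : Finset G) (m : ℕ), m ≤ d - 1 → U'.card = U.card →
      ∃ w ∈ V, ∀ j ∈ Finset.Icc 1 m, (w * z) ^ j ∉ U' := by
    intro U' m hm hU'
    by_contra hcon
    push Not at hcon
    have hsub : V ⊆ (Finset.Icc 1 m).biUnion (fun j => U'.biUnion
        (fun u => V.filter (fun w => (w * z) ^ j = u))) := by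
      intro w hw
      obtain ⟨j, hj, hju⟩ := hcon w hw
      simp only [Finset.mem_biUnion, Finset.mem_filter]
      exact ⟨j, hj, _, hju, hw, rfl⟩
    have hle : V.card ≤ m * (U.card * C ^ (d - 1)) := by
      refine (Finset.card_le_card hsub).trans ?_
      refine (Finset.card_biUnion_le_card_mul _ _ (U.card * C ^ (d - 1)) ?_).trans ?_
      · intro j hj
        rw [← hU']
        refine Finset.card_biUnion_le_card_mul _ _ (C ^ (d - 1)) ?_
        intro u _
        rw [Finset.mem_Icc] at hj
        have := hmin j hj.1 (by omega) (V.filter (fun w => (w * z) ^ j = u))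
          (fun w hw => hVH w (Finset.mem_filter.1 hw).1)
          (fun w hw w' hw' => by
            rw [(Finset.mem_filter.1 hw).2, (Finset.mem_filter.1 hw').2])
        exact this.le.trans (Nat.pow_le_pow_right (by omega) (by omega))
      · simp
    have h1 : m * (U.card * C ^ (d - 1)) ≤ (N * U.card) * C ^ (d - 1) := by
      rw [← mul_assoc]
      exact Nat.mul_le_mul_right _ (Nat.mul_le_mul_right _ (by omega))
    have h2 : (N * U.card) * C ^ (d - 1) < C * C ^ (d - 1) :=
      Nat.mul_lt_mul_of_pos_right hU (by positivity)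
    have h3 : C * C ^ (d - 1) = C ^ d := by
      rw [← pow_succ']; congr 1; omega
    omega
  obtain ⟨w₀, hw₀, hw₀'⟩ := hsmall U (d - 2) (by omega) rfl
  obtain ⟨w, hw, hw'⟩ := hsmall (U.image (· * (w₀ * z))) (d - 1) le_rfl
    (Finset.card_image_of_injective _ (mul_left_injective _))
  refine ⟨closingSet (w₀ * z) (w * z) d, (closingSet_card _ _ _).trans (by omega),
    closes_closingSet (hVH _ hw₀) (hVH _ hw) hd2 (hVc _ hw₀ _ hw), ?_⟩
  rw [Finset.disjoint_left]
  intro q hq hqU
  unfold closingSet at hq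
  rw [Finset.mem_union, Finset.mem_image, Finset.mem_image] at hq
  rcases hq with ⟨j, hj, rfl⟩ | ⟨i, hi, rfl⟩
  · exact hw₀' j hj hqU
  · apply hw' i hi
    rw [Finset.mem_image]
    exact ⟨_, hqU, by group⟩

/-- Many disjoint closing sets. -/
lemma exists_closing_list {N : ℕ} (hN : 1 ≤ N) (hexp : ∀ g : G, g ^ N = 1) (H : Subgroup G)
    (z : G) (n : ℕ) {W : Finset G} (hW : ∀ w ∈ W, w ∈ H)
    (hcard : (N * (n * (2 * N)) + 2) ^ N ≤ W.card) :
    ∀ k, k ≤ n → ∃ l : List (Finset G), l.length = k ∧ l.Pairwise Disjoint ∧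
      (∀ Q ∈ l, Q.card ≤ 2 * N ∧ Closes H z Q) := by
  classical
  intro k
  induction k with
  | zero => intro _; exact ⟨[], by simp⟩
  | succ k ih =>
    intro hk
    obtain ⟨l, hl1, hl2, hl3⟩ := ih (by omega)
    set U : Finset G := l.toFinset.biUnion id with hU
    have hUcard : U.card ≤ k * (2 * N) := by
      refine (Finset.card_biUnion_le_card_mul _ _ (2 * N) ?_).trans ?_
      · intro Q hQ
        exact (hl3 Q (by simpa using hQ)).1
      · apply Nat.mul_le_mul_right
        rw [← hl1]; exact List.toFinset_card_le l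
    obtain ⟨Q, hQ1, hQ2, hQ3⟩ := exists_closing_avoiding hN hexp H z (C := N * (n * (2 * N)) + 2)
      (by omega) hW hcard U (by
        have : N * U.card ≤ N * (n * (2 * N)) :=
          Nat.mul_le_mul_left _ (hUcard.trans (Nat.mul_le_mul_right _ (by omega)))
        omega)
    refine ⟨Q :: l, by simp [hl1], ?_, ?_⟩
    · rw [List.pairwise_cons]
      refine ⟨?_, hl2⟩
      intro Q' hQ'
      rw [hU, Finset.disjoint_biUnion_right] at hQ3
      exact hQ3 Q' (by simpa using hQ')
    · intro Q' hQ'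
      rcases List.mem_cons.1 hQ' with rfl | h
      · exact ⟨hQ1, hQ2⟩
      · exact hl3 Q' h

theorem perc_step [Countable G] {N : ℕ} (hN : 1 ≤ N) (hexp : ∀ g : G, g ^ N = 1)
    {ε : ℝ} (hε : 0 < ε) :
    ∃ L : ℕ, ∀ (z : G) (A : Gph G) (W : Finset G), (∀ w ∈ W, w ∈ conn A) → L ≤ W.card →
      ∃ D : Gph G, MeasG D ∧ gcost D ≤ ENNReal.ofReal ε ∧ z ∈ conn (A ⊔ D) := by
  classical
  set δ : ℝ := min (ε / 2) 1 with hδ
  have hδ0 : 0 < δ := by rw [hδ]; exact lt_min (by positivity) one_pos
  have hδ1 : δ ≤ 1 := min_le_right _ _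
  have hpow : 0 < δ ^ (2 * N) := by positivity
  have hpow1 : δ ^ (2 * N) ≤ 1 := pow_le_one₀ hδ0.le hδ1
  obtain ⟨n, hn⟩ := exists_pow_lt_of_lt_one (show 0 < ε / 2 by positivity)
    (show 1 - δ ^ (2 * N) < 1 by linarith)
  refine ⟨(N * (n * (2 * N)) + 2) ^ N, ?_⟩
  intro z A W hW hcard
  obtain ⟨l, hl1, hl2, hl3⟩ := exists_closing_list hN hexp (conn A) z n hW hcard n le_rfl
  set E : Set (G → ℝ) := {x | x 1 < δ} with hE
  have hEm : MeasurableSet E := measurableSet_lt (measurable_pi_apply 1) measurable_const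
  refine ⟨single z (E ∪ failSet δ l), single_meas z (hEm.union (failSet_measurable δ l)), ?_, ?_⟩
  · rw [gcost_single]
    refine (measure_union_le _ _).trans ?_
    have h1 : bern G E = ENNReal.ofReal δ := bern_lt 1 hδ0.le hδ1
    have h2 := bern_failSet δ hδ0.le hδ1 (2 * N) l hl2 (fun Q hQ => (hl3 Q hQ).1)
    rw [hl1] at h2
    calc bern G E + bern G (failSet δ l)
        ≤ ENNReal.ofReal δ + ENNReal.ofReal (1 - δ ^ (2 * N)) ^ n := by
          rw [h1]; gcongr
      _ = ENNReal.ofReal (δ + (1 - δ ^ (2 * N)) ^ n) := by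
          rw [← ENNReal.ofReal_pow (by linarith), ← ENNReal.ofReal_add hδ0.le
            (pow_nonneg (by linarith) _)]
      _ ≤ ENNReal.ofReal ε := by
          apply ENNReal.ofReal_le_ofReal
          have : δ ≤ ε / 2 := min_le_left _ _
          linarith
  · set B : Gph G := A ⊔ single z (E ∪ failSet δ l) with hB
    rw [mem_conn]
    have hall : ∀ᵐ x ∂(bern G), ∀ g : G, ∀ h : conn A, Cn A (sh g x) (sh (h * g) x) := by
      rw [ae_all_iff]; intro g
      rw [ae_all_iff]; intro h
      have := ae_sh g (mem_conn.1 h.2)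
      filter_upwards [this] with x hx
      rwa [sh_sh] at hx
    filter_upwards [hall] with x hx
    by_cases hxY : x ∈ E ∪ failSet δ l
    · have : x ∈ B z := Or.inr (mem_single hxY)
      exact Cn.edge this
    · rw [Set.mem_union, not_or] at hxY
      obtain ⟨_, h2⟩ := hxY
      simp only [failSet, Set.mem_ofPred_eq, not_forall, not_exists, not_and, not_le] at h2
      obtain ⟨Q, hQ, hQx⟩ := h2
      have hc := (hl3 Q hQ).2 (fun g g' => Cn B (sh g x) (sh g' x))
        ⟨fun g => Cn.refl B _, fun h => h.symm, fun h h' => h.trans h'⟩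
        (fun g h hh => (hx g ⟨h, hh⟩).mono le_sup_left)
        (fun q hq => by
          have hqE : sh q x ∈ E := by
            rw [hE, Set.mem_ofPred_eq, sh_apply, one_mul]; exact hQx q hq
          have : sh q x ∈ B z := Or.inr (mem_single (Or.inl hqE))
          have h' := Cn.edge this
          rwa [sh_sh] at h')
      simpa using hc

end Pool.Agent.Lib.MP_7e9760_al
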