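import Pool.Agent.Lib.MP_7e9760_al.Pack
import Pool.Agent.Lib.MP_7e9760_al.Am2
import Pool.Agent.Lib.MP_7e9760_al.Perc
import Pool.Agent.Lib.MP_7e9760_al.LemG

/-!
The cost of a countable group with amenable two-generated subgroups is at most one.
-/

open MeasureTheory Set
open scoped ENNReal

namespace Pool.Agent.Lib.MP_7e9760_al

universe u

lemma isAmenable_of_finite {H : Type u} [Group H] [Finite H] : IsAmenable H := by
  classical
  intro S ε hε
  have := Fintype.ofFinite H
  refine ⟨Finset.univ, ⟨1, Finset.mem_univ _⟩, ?_⟩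
  intro s _
  simp only [Finset.mem_univ, not_true_eq_false, Finset.filter_false, Finset.card_empty,
    Nat.cast_zero]
  positivity

lemma tsum_eps {ε : ℝ} (hε : 0 < ε) :
    ∑' k : ℕ, ENNReal.ofReal (ε / 4 * (1 / 2) ^ k) = ENNReal.ofReal (ε / 2) := by
  rw [← ENNReal.ofReal_tsum_of_nonneg (fun k => by positivity)
    (summable_geometric_two.mul_left _), tsum_mul_left, tsum_geometric_two]
  congr 1; ring

variable {G : Type u} [Group G]

/-- If the orders of the elements are unbounded. -/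
lemma case_unbounded [Countable G] (h : Amen2 G) (hun : ¬ ∃ N : ℕ, 1 ≤ N ∧ ∀ g : G, g ^ N = 1)
    {ε : ℝ} (hε : 0 < ε) :
    ∃ A : Gph G, MeasG A ∧ gcost A ≤ 1 + ENNReal.ofReal ε ∧ ∀ g, g ∈ conn A := by
  classical
  obtain ⟨e, he⟩ := exists_surjective_nat G
  have hlarge : ∀ m : ℕ, ∃ y : G, ((Finset.range m).image (fun i => y ^ i)).card = m := by
    intro m
    by_contra hcon
    push Not at hcon
    apply hun
    have hord : ∀ y : G, orderOf y ≠ 0 ∧ orderOf y < m := by
      intro y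
      by_contra hcon2
      apply hcon y
      have : Set.InjOn (fun i : ℕ => y ^ i) (Finset.range m : Set ℕ) := by
        rw [not_and_or, not_not, not_lt] at hcon2
        rcases hcon2 with h0 | h0
        · rw [orderOf_eq_zero_iff] at h0
          exact (injective_pow_iff_not_isOfFinOrder.2 h0).injOn
        · intro i hi j hj hij
          rw [Finset.coe_range, Set.mem_Iio] at hi hj
          exact pow_injOn_Iio_orderOf (Set.mem_Iio.2 (hi.trans_le h0))
            (Set.mem_Iio.2 (hj.trans_le h0)) hij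
      rw [Finset.card_image_of_injOn this, Finset.card_range]
    refine ⟨m.factorial, Nat.succ_le_of_lt (Nat.factorial_pos m), ?_⟩
    intro g
    have := hord g
    exact orderOf_dvd_iff_pow_eq_one.1 (Nat.dvd_factorial (by omega) (by omega))
  have hε' : ∀ k : ℕ, 0 < ε / 4 * (1 / 2) ^ k / 2 := fun k => by positivity
  choose m hm using fun k : ℕ => am_step' (G := G) (hε' k)
  choose y hy using fun k : ℕ => hlarge (m k)
  let T : ℕ → Finset G := fun k => (Finset.range (m k)).image (fun i => y k ^ i)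
  have hTconn : ∀ k (B : Subgroup G), y k ∈ B → ∀ t ∈ T k, t ∈ B := by
    intro k B hB t ht
    obtain ⟨i, _, rfl⟩ := Finset.mem_image.1 ht
    exact B.pow_mem hB i
  obtain ⟨A0, hA0, hA0c, hA0s⟩ := am_start (show 0 < ε / 2 by positivity) _ (h (y 0) (y 0)) {y 0}
    (by
      intro s hs
      rw [Finset.mem_singleton.1 hs]
      exact Subgroup.subset_closure (by simp))
  have hstep : ∀ k A, (fun k (A : Gph G) => y k ∈ conn A ∧ ∀ j < k, e j ∈ conn A) k A → ∃ D : Gph G, MeasG D ∧
      gcost D ≤ ENNReal.ofReal (ε / 4 * (1 / 2) ^ k) ∧ (fun k (A : Gph G) => y k ∈ conn A ∧ ∀ j < k, e j ∈ conn A) (k + 1) (A ⊔ D) := by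
    rintro k A ⟨hy1, hy2⟩
    obtain ⟨D1, h11, h12, h13⟩ := hm k _ (h (y k) (y (k + 1))) (T k) {y (k + 1)}
      (hTconn k _ (Subgroup.subset_closure (by simp)))
      (by
        intro s hs
        rw [Finset.mem_singleton.1 hs]
        exact Subgroup.subset_closure (by simp))
      (hy k).ge A (hTconn k _ hy1)
    obtain ⟨D2, h21, h22, h23⟩ := hm k _ (h (y k) (e k)) (T k) {e k}
      (hTconn k _ (Subgroup.subset_closure (by simp)))
      (by
        intro s hs
        rw [Finset.mem_singleton.1 hs]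
        exact Subgroup.subset_closure (by simp))
      (hy k).ge A (hTconn k _ hy1)
    have hle1 : A ⊔ D1 ≤ A ⊔ (D1 ⊔ D2) := sup_le_sup_left le_sup_left A
    have hle2 : A ⊔ D2 ≤ A ⊔ (D1 ⊔ D2) := sup_le_sup_left le_sup_right A
    refine ⟨D1 ⊔ D2, h11.sup h21, ?_, ?_, ?_⟩
    · refine (gcost_sup_le _ _).trans ((add_le_add h12 h22).trans ?_)
      rw [← ENNReal.ofReal_add (hε' k).le (hε' k).le, add_halves]
    · exact conn_mono hle1 (h13 _ (Finset.mem_singleton_self _))
    · intro j hj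
      rcases Nat.lt_succ_iff_lt_or_eq.1 hj with h | rfl
      · exact conn_mono le_sup_left (hy2 j h)
      · exact conn_mono hle2 (h23 _ (Finset.mem_singleton_self _))
  obtain ⟨A, hA, hAc, hAs⟩ := assembly (G := G)
    (fun k A => y k ∈ conn A ∧ ∀ j < k, e j ∈ conn A)
    (fun k => ENNReal.ofReal (ε / 4 * (1 / 2) ^ k)) A0 hA0
    ⟨hA0s _ (Finset.mem_singleton_self _), fun j hj => absurd hj (Nat.not_lt_zero j)⟩ hstep e he
    (fun k A hA => hA.2 k (Nat.lt_succ_self k))
  refine ⟨A, hA, hAc.trans ?_, hAs⟩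
  rw [tsum_eps hε]
  refine (add_le_add_left hA0c _).trans ?_
  rw [add_assoc, ← ENNReal.ofReal_add (by positivity) (by positivity), add_halves]

/-- Adding finitely many elements to a large group of connected elements. -/
lemma multi_perc [Countable G] {N : ℕ} (hN : 1 ≤ N) (hexp : ∀ g : G, g ^ N = 1) (Z : Finset G) :
    ∀ {ε : ℝ}, 0 < ε → ∃ L : ℕ, ∀ (A : Gph G) (W : Finset G), (∀ w ∈ W, w ∈ conn A) →
      L ≤ W.card → ∃ D : Gph G, MeasG D ∧ gcost D ≤ ENNReal.ofReal ε ∧
        ∀ z ∈ Z, z ∈ conn (A ⊔ D) := by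
  classical
  induction Z using Finset.induction_on with
  | empty =>
    intro ε hε
    refine ⟨0, fun A W _ _ => ⟨⊥, fun g => ?_, ?_, fun z hz => absurd hz (Finset.notMem_empty z)⟩⟩
    · exact MeasurableSet.empty
    · have : gcost (⊥ : Gph G) = 0 := by
        unfold gcost
        simp
      rw [this]; exact zero_le
  | insert z Z _ ih =>
    intro ε hε
    obtain ⟨L1, hL1⟩ := ih (show 0 < ε / 2 by positivity)
    obtain ⟨L2, hL2⟩ := perc_step (G := G) hN hexp (show 0 < ε / 2 by positivity)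
    refine ⟨max L1 L2, fun A W hW hcard => ?_⟩
    obtain ⟨D1, h11, h12, h13⟩ := hL1 A W hW ((le_max_left _ _).trans hcard)
    obtain ⟨D2, h21, h22, h23⟩ := hL2 z A W hW ((le_max_right _ _).trans hcard)
    have hle1 : A ⊔ D1 ≤ A ⊔ (D1 ⊔ D2) := sup_le_sup_left le_sup_left A
    have hle2 : A ⊔ D2 ≤ A ⊔ (D1 ⊔ D2) := sup_le_sup_left le_sup_right A
    refine ⟨D1 ⊔ D2, h11.sup h21, ?_, ?_⟩
    · refine (gcost_sup_le _ _).trans ((add_le_add h12 h22).trans ?_)
      rw [← ENNReal.ofReal_add (by positivity) (by positivity), add_halves]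
    · intro z' hz'
      rcases Finset.mem_insert.1 hz' with rfl | h
      · exact conn_mono hle2 h23
      · exact conn_mono hle1 (h13 z' h)

/-- Arbitrarily large finitely generated amenable subgroups. -/
lemma large_amenable [Infinite G] (h : Amen2 G) (L : ℕ) :
    ∃ (B : Subgroup G) (S W : Finset G), IsAmenable B ∧ Subgroup.closure (S : Set G) = B ∧
      (∀ w ∈ W, w ∈ B) ∧ L ≤ W.card := by
  classical
  by_cases hinf : ∃ a b : G, Infinite (Subgroup.closure ({a, b} : Set G))
  · obtain ⟨a, b, hab⟩ := hinf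
    have : ((Subgroup.closure ({a, b} : Set G)) : Set G).Infinite := Set.infinite_coe_iff.1 hab
    obtain ⟨W, hW, hWc⟩ := this.exists_subset_card_eq L
    refine ⟨_, {a, b}, W, h a b, by simp, fun w hw => hW hw, hWc.ge⟩
  · push Not at hinf
    obtain ⟨B, hB, hBc⟩ := exists_large_finite (G := G)
      (fun a b => hinf a b) L
    have hBf : (B : Set G).Finite := Set.toFinite _
    refine ⟨B, hBf.toFinset, hBf.toFinset, isAmenable_of_finite, by simp, fun w hw => by
      simpa using hw, ?_⟩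
    have : Nat.card B = hBf.toFinset.card := by
      rw [← Set.ncard_eq_toFinset_card _ hBf]; rfl
    omega

/-- Bounded exponent, not locally finite. -/
lemma case_not_locally_finite [Countable G] [Infinite G] (h : Amen2 G) {N : ℕ} (hN : 1 ≤ N)
    (hexp : ∀ g : G, g ^ N = 1) (Z : Finset G)
    (hZ : (Subgroup.closure (Z : Set G) : Set G).Infinite) {ε : ℝ} (hε : 0 < ε) :
    ∃ A : Gph G, MeasG A ∧ gcost A ≤ 1 + ENNReal.ofReal ε ∧ ∀ g, g ∈ conn A := by
  classical
  obtain ⟨e, he⟩ := exists_surjective_nat G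
  obtain ⟨L, hL⟩ := multi_perc hN hexp Z (show 0 < ε / 4 by positivity)
  obtain ⟨B, S, W, hB, hS, hW, hWL⟩ := large_amenable h L
  obtain ⟨A0, hA0, hA0c, hA0s⟩ := am_start (show 0 < ε / 4 by positivity) B hB S
    (fun s hs => by rw [← hS]; exact Subgroup.subset_closure hs)
  have hBconn : B ≤ conn A0 := by
    rw [← hS, Subgroup.closure_le]
    intro s hs
    exact hA0s s hs
  obtain ⟨D, hD, hDc, hDs⟩ := hL A0 W (fun w hw => hBconn (hW w hw)) hWL
  have hinf : (conn (A0 ⊔ D) : Set G).Infinite := by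
    refine hZ.mono ?_
    have : Subgroup.closure (Z : Set G) ≤ conn (A0 ⊔ D) := by
      rw [Subgroup.closure_le]
      intro z hz
      exact hDs z hz
    exact this
  have hε' : ∀ k : ℕ, 0 < ε / 4 * (1 / 2) ^ k := fun k => by positivity
  choose m hm using fun k : ℕ => perc_step (G := G) hN hexp (hε' k)
  have hstep : ∀ k A, (fun k (A : Gph G) => (conn A : Set G).Infinite ∧ ∀ j < k, e j ∈ conn A) k A → ∃ D : Gph G, MeasG D ∧
      gcost D ≤ ENNReal.ofReal (ε / 4 * (1 / 2) ^ k) ∧ (fun k (A : Gph G) => (conn A : Set G).Infinite ∧ ∀ j < k, e j ∈ conn A) (k + 1) (A ⊔ D) := by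
    rintro k A ⟨hA1, hA2⟩
    obtain ⟨W, hW, hWc⟩ := hA1.exists_subset_card_eq (m k)
    obtain ⟨D, h1, h2, h3⟩ := hm k (e k) A W (fun w hw => hW hw) hWc.ge
    refine ⟨D, h1, h2, hA1.mono (conn_mono le_sup_left), ?_⟩
    intro j hj
    rcases Nat.lt_succ_iff_lt_or_eq.1 hj with h | rfl
    · exact conn_mono le_sup_left (hA2 j h)
    · exact h3
  obtain ⟨A, hA, hAc, hAs⟩ := assembly (G := G)
    (fun k A => (conn A : Set G).Infinite ∧ ∀ j < k, e j ∈ conn A)
    (fun k => ENNReal.ofReal (ε / 4 * (1 / 2) ^ k)) (A0 ⊔ D) (hA0.sup hD)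
    ⟨hinf, fun j hj => absurd hj (Nat.not_lt_zero j)⟩ hstep e he
    (fun k A hA => hA.2 k (Nat.lt_succ_self k))
  refine ⟨A, hA, hAc.trans ?_, hAs⟩
  rw [tsum_eps hε]
  refine (add_le_add_left ((gcost_sup_le _ _).trans (add_le_add hA0c hDc)) _).trans ?_
  rw [add_assoc, add_assoc, ← ENNReal.ofReal_add (by positivity) (by positivity),
    ← ENNReal.ofReal_add (by positivity) (by positivity)]
  gcongr
  linarith

/-- Locally finite groups. -/
lemma case_locally_finite [Countable G] [Infinite G]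
    (hlf : ∀ Z : Finset G, (Subgroup.closure (Z : Set G) : Set G).Finite) {ε : ℝ} (hε : 0 < ε) :
    ∃ A : Gph G, MeasG A ∧ gcost A ≤ 1 + ENNReal.ofReal ε ∧ ∀ g, g ∈ conn A := by
  classical
  obtain ⟨e, he⟩ := exists_surjective_nat G
  have hε' : ∀ k : ℕ, 0 < ε / 4 * (1 / 2) ^ k := fun k => by positivity
  choose m hm using fun k : ℕ => am_step' (G := G) (hε' k)
  obtain ⟨W0, hW0⟩ := Infinite.exists_subset_card_eq G (m 0)
  have hB0 := hlf W0
  have hB0a : IsAmenable (Subgroup.closure (W0 : Set G)) := by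
    have : Finite (Subgroup.closure (W0 : Set G)) := hB0.to_subtype
    exact isAmenable_of_finite
  obtain ⟨A0, hA0, hA0c, hA0s⟩ := am_start (show 0 < ε / 2 by positivity) _ hB0a hB0.toFinset
    (fun s hs => by simpa using hs)
  have hstep : ∀ k A, (fun k (A : Gph G) => (∃ T : Finset G, (∀ t ∈ T, t ∈ conn A) ∧ m k ≤ T.card) ∧ ∀ j < k, e j ∈ conn A) k A → ∃ D : Gph G, MeasG D ∧
      gcost D ≤ ENNReal.ofReal (ε / 4 * (1 / 2) ^ k) ∧ (fun k (A : Gph G) => (∃ T : Finset G, (∀ t ∈ T, t ∈ conn A) ∧ m k ≤ T.card) ∧ ∀ j < k, e j ∈ conn A) (k + 1) (A ⊔ D) := by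
    rintro k A ⟨⟨T, hT, hTc⟩, hA2⟩
    obtain ⟨W, hW⟩ := Infinite.exists_subset_card_eq G (m (k + 1))
    set S : Finset G := T ∪ W ∪ {e k} with hS
    have hBa : IsAmenable (Subgroup.closure (S : Set G)) := by
      have : Finite (Subgroup.closure (S : Set G)) := (hlf S).to_subtype
      exact isAmenable_of_finite
    obtain ⟨D, h1, h2, h3⟩ := hm k _ hBa T S
      (fun t ht => Subgroup.subset_closure (by
        rw [hS]; exact Finset.mem_coe.2 (Finset.mem_union_left _ (Finset.mem_union_left _ ht))))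
      (fun s hs => Subgroup.subset_closure hs) hTc A hT
    refine ⟨D, h1, h2, ⟨W, ?_, hW.ge⟩, ?_⟩
    · intro w hw
      exact h3 w (Finset.mem_union_left _ (Finset.mem_union_right _ hw))
    · intro j hj
      rcases Nat.lt_succ_iff_lt_or_eq.1 hj with h | rfl
      · exact conn_mono le_sup_left (hA2 j h)
      · exact h3 _ (Finset.mem_union_right _ (Finset.mem_singleton_self _))
  obtain ⟨A, hA, hAc, hAs⟩ := assembly (G := G)
    (fun k A => (∃ T : Finset G, (∀ t ∈ T, t ∈ conn A) ∧ m k ≤ T.card) ∧ ∀ j < k, e j ∈ conn A)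
    (fun k => ENNReal.ofReal (ε / 4 * (1 / 2) ^ k)) A0 hA0
    ⟨⟨W0, fun t ht => hA0s t (by
      rw [Set.Finite.mem_toFinset]; exact Subgroup.subset_closure ht), hW0.ge⟩,
      fun j hj => absurd hj (Nat.not_lt_zero j)⟩ hstep e he
    (fun k A hA => hA.2 k (Nat.lt_succ_self k))
  refine ⟨A, hA, hAc.trans ?_, hAs⟩
  rw [tsum_eps hε]
  refine (add_le_add_left hA0c _).trans ?_
  rw [add_assoc, ← ENNReal.ofReal_add (by positivity) (by positivity), add_halves]

theorem main_graph [Countable G] (h : Amen2 G) {ε : ℝ} (hε : 0 < ε) :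
    ∃ A : Gph G, MeasG A ∧ gcost A ≤ 1 + ENNReal.ofReal ε ∧ ∀ g, g ∈ conn A := by
  classical
  by_cases hun : ∃ N : ℕ, 1 ≤ N ∧ ∀ g : G, g ^ N = 1
  swap
  · exact case_unbounded h hun hε
  obtain ⟨N, hN, hexp⟩ := hun
  rcases finite_or_infinite G with hG | hG
  · have := Fintype.ofFinite G
    have hT : IsAmenable (⊤ : Subgroup G) := isAmenable_of_finite
    obtain ⟨A, hA, hAc, hAs⟩ := am_start hε ⊤ hT Finset.univ (fun _ _ => trivial)
    exact ⟨A, hA, hAc, fun g => hAs g (Finset.mem_univ g)⟩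
  · by_cases hlf : ∀ Z : Finset G, (Subgroup.closure (Z : Set G) : Set G).Finite
    · exact case_locally_finite hlf hε
    · push Not at hlf
      obtain ⟨Z, hZ⟩ := hlf
      exact case_not_locally_finite h hN hexp Z hZ hε

theorem groupCost_le_one [Countable G] (h : Amen2 G) : groupCost G ≤ 1 := by
  apply ENNReal.le_of_forall_pos_le_add
  intro ε hε _
  obtain ⟨A, hA, hAc, hAs⟩ := main_graph h (ε := (ε : ℝ)) (by exact_mod_cast hε)
  refine (groupCost_le A hA hAs).trans (hAc.trans ?_)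
  rw [ENNReal.ofReal_coe_nnreal]

end Pool.Agent.Lib.MP_7e9760_al
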