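import Pool.Agent.Lib.MP_7e9760_al.Count

/-!
A group in which two-generated subgroups are finite has no proper nontrivial malnormal subgroup
containing a conjugate of every element of prime order.
-/

namespace Pool.Agent.Lib.MP_7e9760_al

universe u

theorem no_malnormal {Γ : Type u} [Group Γ] (K : Subgroup Γ) (hK : Malnormal K)
    (hx : ∃ x ∈ K, x ≠ 1) (hv : ∃ v, v ∉ K)
    (hfin : ∀ a b : Γ, Finite (Subgroup.closure ({a, b} : Set Γ)))
    (hprime : ∀ k : Γ, (orderOf k).Prime → ∃ g, g * k * g⁻¹ ∈ K) : False := by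
  classical
  -- a pair with the smallest generated subgroup
  have hex : ∃ n, ∃ x ∈ K, x ≠ 1 ∧ ∃ v, v ∉ K ∧
      Nat.card (Subgroup.closure ({x, v} : Set Γ)) = n := by
    obtain ⟨x, hx, hx1⟩ := hx
    obtain ⟨v, hv⟩ := hv
    exact ⟨_, x, hx, hx1, v, hv, rfl⟩
  obtain ⟨x, hxK, hx1, v, hvK, hcard⟩ := Nat.find_spec hex
  have hmin : ∀ e ∈ K, e ≠ 1 → ∀ w, w ∉ K →
      Nat.find hex ≤ Nat.card (Subgroup.closure ({e, w} : Set Γ)) :=
    fun e he he1 w hw => Nat.find_min' hex ⟨e, he, he1, w, hw, rfl⟩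
  set Q : Subgroup Γ := Subgroup.closure ({x, v} : Set Γ) with hQ
  have hQf : Finite Q := hfin x v
  have hxQ : x ∈ Q := Subgroup.subset_closure (by simp)
  have hvQ : v ∈ Q := Subgroup.subset_closure (by simp)
  have hgen : ∀ e ∈ Q, e ∈ K → e ≠ 1 → ∀ w ∈ Q, w ∉ K →
      Subgroup.closure ({e, w} : Set Γ) = Q := by
    intro e heQ heK he1 w hwQ hwK
    have hle : Subgroup.closure ({e, w} : Set Γ) ≤ Q := by
      rw [Subgroup.closure_le]
      rintro a (rfl | rfl)
      · exact heQ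
      · exact hwQ
    have := hmin e heK he1 w hwK
    rw [← hcard] at this
    exact Subgroup.eq_of_le_of_card_ge hle this
  set D : Subgroup Q := K.subgroupOf Q with hD
  have hDm : Malnormal D := by
    intro d hd hd1 g hg
    rw [hD, Subgroup.mem_subgroupOf] at *
    refine hK d hd (fun h => hd1 (Subtype.ext h)) g ?_
    simpa using hg
  have hDne : D ≠ ⊥ := by
    intro h
    have : (⟨x, hxQ⟩ : Q) ∈ D := by rw [hD, Subgroup.mem_subgroupOf]; exact hxK
    rw [h, Subgroup.mem_bot] at this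
    exact hx1 (congrArg Subtype.val this)
  have hDnt : D ≠ ⊤ := by
    intro h
    have : (⟨v, hvQ⟩ : Q) ∈ D := by rw [h]; trivial
    rw [hD, Subgroup.mem_subgroupOf] at this
    exact hvK this
  -- an element of prime order in no conjugate of D
  obtain ⟨k, hkprime, hkD⟩ : ∃ k : Q, (orderOf k).Prime ∧ ∀ q : Q, q⁻¹ * k * q ∉ D := by
    obtain ⟨k₀, hk₀, hk₀D⟩ := exists_not_conj hDm hDne hDnt
    have hord : orderOf k₀ ≠ 1 := fun h => hk₀ (orderOf_eq_one_iff.1 h)
    have hord0 : orderOf k₀ ≠ 0 := (orderOf_pos k₀).ne'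
    obtain ⟨r, hr, hrd⟩ := Nat.exists_prime_and_dvd hord
    refine ⟨k₀ ^ (orderOf k₀ / r), ?_, ?_⟩
    · rw [orderOf_pow_orderOf_div hord0 hrd]; exact hr
    · intro q hq
      have hk1 : k₀ ^ (orderOf k₀ / r) ≠ 1 := by
        intro h
        have := orderOf_pow_orderOf_div hord0 hrd
        rw [h, orderOf_one] at this
        exact hr.one_lt.ne this
      apply hk₀D q
      apply hDm _ hq (conj_ne_one hk1)
      have hcomm : k₀ * k₀ ^ (orderOf k₀ / r) = k₀ ^ (orderOf k₀ / r) * k₀ :=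
        ((Commute.refl k₀).pow_right _).eq
      have : (q⁻¹ * k₀ * q)⁻¹ * (q⁻¹ * k₀ ^ (orderOf k₀ / r) * q) * (q⁻¹ * k₀ * q) =
          q⁻¹ * (k₀⁻¹ * (k₀ ^ (orderOf k₀ / r) * k₀)) * q := by group
      rw [this, ← hcomm]
      simpa [mul_assoc] using hq
  have hkΓ : (orderOf (k : Γ)).Prime := by rw [Subgroup.orderOf_coe]; exact hkprime
  have hkK : ∀ q ∈ Q, q⁻¹ * (k : Γ) * q ∉ K := by
    intro q hq h
    apply hkD ⟨q, hq⟩
    rw [hD, Subgroup.mem_subgroupOf]
    simpa using h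
  have hkK1 : (k : Γ) ∉ K := by
    have := hkK 1 Q.one_mem
    simpa using this
  obtain ⟨g, hg⟩ := hprime k hkΓ
  set K' : Subgroup Γ := K.comap (MulAut.conj g).toMonoidHom with hK'
  have hmemK' : ∀ a, a ∈ K' ↔ g * a * g⁻¹ ∈ K := by
    intro a; rw [hK', Subgroup.mem_comap]; rfl
  have hxK' : x ∉ K' := by
    intro h
    rw [hmemK'] at h
    have hgK : g ∈ K := by
      have hne : g * x * g⁻¹ ≠ 1 := by
        have := conj_ne_one (g := x) (q := g⁻¹) hx1
        simpa using this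
      apply hK _ h hne
      have : g⁻¹ * (g * x * g⁻¹) * g = x := by group
      rw [this]; exact hxK
    apply hkK1
    have : (k : Γ) = g⁻¹ * (g * k * g⁻¹) * g := by group
    rw [this]
    exact K.mul_mem (K.mul_mem (K.inv_mem hgK) hg) hgK
  have hkK' : (k : Γ) ∈ K' := (hmemK' _).2 hg
  set D' : Subgroup Q := K'.subgroupOf Q with hD'
  have hD'm : Malnormal D' := by
    intro d hd hd1 h hh
    rw [hD', Subgroup.mem_subgroupOf, hmemK'] at *
    have hd1' : (d : Γ) ≠ 1 := fun h => hd1 (Subtype.ext h)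
    refine hK _ hd ?_ _ ?_
    · have := conj_ne_one (g := (d : Γ)) (q := g⁻¹) hd1'
      simpa using this
    · have : (g * (h : Γ) * g⁻¹)⁻¹ * (g * (d : Γ) * g⁻¹) * (g * (h : Γ) * g⁻¹) =
          g * ((h⁻¹ * d * h : Q) : Γ) * g⁻¹ := by
        push_cast; group
      rw [this]; exact hh
  have hD'ne : D' ≠ ⊥ := by
    intro h
    have : k ∈ D' := by rw [hD', Subgroup.mem_subgroupOf]; exact hkK'
    rw [h, Subgroup.mem_bot] at this
    rw [this, orderOf_one] at hkprime
    exact Nat.not_prime_one hkprime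
  have hD'nt : D' ≠ ⊤ := by
    intro h
    have : (⟨x, hxQ⟩ : Q) ∈ D' := by rw [h]; trivial
    rw [hD', Subgroup.mem_subgroupOf] at this
    exact hxK' this
  obtain ⟨e, he1, ⟨q₁, hq₁⟩, ⟨q₂, hq₂⟩⟩ := conjSets_meet hDm hDne hDnt hD'm hD'ne hD'nt
  -- the element e' of D' conjugate into D by p
  set e' : Q := q₂⁻¹ * e * q₂ with he'
  set p : Q := q₂⁻¹ * q₁ with hp
  have hpe : p⁻¹ * e' * p = q₁⁻¹ * e * q₁ := by rw [he', hp]; group
  have hc := hgen ((p⁻¹ * e' * p : Q) : Γ) (Subtype.property _) (by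
      rw [hpe]; rw [hD, Subgroup.mem_subgroupOf] at hq₁; exact hq₁) (by
      intro h
      rw [hpe] at h
      exact conj_ne_one he1 (Subtype.ext h)) ((p⁻¹ * k * p : Q) : Γ) (Subtype.property _) (by
      have := hkK p p.2
      simpa using this)
  apply hxK'
  have hx' : ((p : Γ)⁻¹ * x * p) ∈ Q := Q.mul_mem (Q.mul_mem (Q.inv_mem p.2) hxQ) p.2
  have hle : Subgroup.closure ({((p⁻¹ * e' * p : Q) : Γ), ((p⁻¹ * k * p : Q) : Γ)} : Set Γ) ≤
      K'.comap (MulAut.conj (p : Γ)).toMonoidHom := by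
    rw [Subgroup.closure_le]
    rintro a (rfl | rfl)
    · show (MulAut.conj (p : Γ)).toMonoidHom ((p⁻¹ * e' * p : Q) : Γ) ∈ K'
      have : (MulAut.conj (p : Γ)).toMonoidHom ((p⁻¹ * e' * p : Q) : Γ) = (e' : Γ) := by
        simp only [MulEquiv.toMonoidHom_eq_coe, MonoidHom.coe_coe, MulAut.conj_apply]
        push_cast; group
      rw [this]
      rw [hD', Subgroup.mem_subgroupOf] at hq₂
      exact hq₂
    · show (MulAut.conj (p : Γ)).toMonoidHom ((p⁻¹ * k * p : Q) : Γ) ∈ K'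
      have : (MulAut.conj (p : Γ)).toMonoidHom ((p⁻¹ * k * p : Q) : Γ) = (k : Γ) := by
        simp only [MulEquiv.toMonoidHom_eq_coe, MonoidHom.coe_coe, MulAut.conj_apply]
        push_cast; group
      rw [this]
      exact hkK'
  have h2 := hle (hc.symm.le hx')
  rw [Subgroup.mem_comap] at h2
  have : (MulAut.conj (p : Γ)).toMonoidHom ((p : Γ)⁻¹ * x * p) = x := by
    simp only [MulEquiv.toMonoidHom_eq_coe, MonoidHom.coe_coe, MulAut.conj_apply]
    group
  rwa [this] at h2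

end Pool.Agent.Lib.MP_7e9760_al
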