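import Pool.Agent.Lib.MP_7e9760_al.Defs
import Pool.Agent.Lib.MP_7e9760_al.Graph

/-!
From graphs on the space of labellings to graphings in the sense of `Defs`.
-/

open MeasureTheory Set
open scoped ENNReal

namespace Pool.Agent.Lib.MP_7e9760_al

universe u

variable {G : Type u} [Group G]

/-- The shift action. -/
@[reducible] def shiftAction (G : Type u) [Group G] : MulAction G (G → ℝ) where
  smul := sh
  one_smul := sh_one
  mul_smul := fun a b x => (sh_sh a b x).symm

lemma sh_free [Countable G] : ∀ᵐ x ∂(bern G), ∀ g : G, sh g x = x → g = 1 := by
  rw [ae_all_iff]
  intro g
  by_cases hg : g = 1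
  · exact Filter.Eventually.of_forall fun _ _ => hg
  · have h0 := bern_tie (G := G) hg
    have h1 : ∀ᵐ x ∂(bern G), ¬ (x g = x 1) := by
      rw [ae_iff]; simpa using h0
    filter_upwards [h1] with x hx h
    exfalso
    apply hx
    have := congrFun h 1
    simpa using this

lemma groupCost_le [Countable G] (A : Gph G) (hm : MeasG A) (hA : ∀ g, g ∈ conn A) :
    groupCost G ≤ gcost A := by
  classical
  letI : MulAction G (G → ℝ) := shiftAction G
  haveI : Encodable G := Encodable.ofCountable G
  have hfree : IsFreePmpAction G (G → ℝ) (bern G) :=
    { isProbabilityMeasure := inferInstance
      measurePreserving := fun g => sh_mp g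
      free := sh_free }
  let d : ℕ → Set (G → ℝ) := fun i => match Encodable.decode₂ G i with
    | some g => A g
    | none => ∅
  let m : ℕ → (G → ℝ) → (G → ℝ) := fun i => match Encodable.decode₂ G i with
    | some g => sh g
    | none => id
  have hinj : ∀ g : G, Function.Injective (sh g) := by
    intro g x y h
    have := congrArg (sh g⁻¹) h
    simpa [sh_sh] using this
  let Φ : Graphing G (G → ℝ) (bern G) :=
    { dom := d
      map := m
      measurableSet_dom := by
        intro i
        simp only [d]
        cases Encodable.decode₂ G i with
        | none => exact MeasurableSet.empty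
        | some g => exact hm g
      measurable_map := by
        intro i
        simp only [m]
        cases Encodable.decode₂ G i with
        | none => exact measurable_id
        | some g => exact sh_measurable g
      measurableSet_image := by
        intro i
        simp only [d, m]
        cases Encodable.decode₂ G i with
        | none => simp
        | some g =>
          have : sh g '' A g = sh g⁻¹ ⁻¹' (A g) := by
            ext x
            constructor
            · rintro ⟨y, hy, rfl⟩
              simpa [sh_sh] using hy
            · intro hx
              exact ⟨sh g⁻¹ x, hx, by simp [sh_sh]⟩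
          simp only [this]
          exact sh_measurable g⁻¹ (hm g)
      injOn := by
        intro i
        simp only [d, m]
        cases Encodable.decode₂ G i with
        | none => simp
        | some g => exact (hinj g).injOn
      mem_orbit := by
        intro i x hx
        simp only [d, m] at hx ⊢
        cases h : Encodable.decode₂ G i with
        | none => rw [h] at hx; simp at hx
        | some g => exact ⟨g, rfl⟩
      components := by
        have hall : ∀ᵐ x ∂(bern G), ∀ g : G, Cn A x (sh g x) := by
          rw [ae_all_iff]; exact fun g => hA g
        filter_upwards [hall] with x hx y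
        constructor
        · intro h
          have key : ∀ a b : G → ℝ, Relation.EqvGen (fun a b => ∃ i, a ∈ d i ∧ m i a = b) a b →
              ∃ g : G, sh g a = b := by
            intro a b hab
            induction hab with
            | rel a b hab =>
              obtain ⟨i, hi, rfl⟩ := hab
              simp only [d, m] at hi ⊢
              cases h : Encodable.decode₂ G i with
              | none => exact ⟨1, by simp⟩
              | some g => exact ⟨g, rfl⟩
            | refl a => exact ⟨1, by simp⟩
            | symm a b _ ih =>
              obtain ⟨g, rfl⟩ := ih
              exact ⟨g⁻¹, by simp [sh_sh]⟩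
            | trans a b c _ _ ih1 ih2 =>
              obtain ⟨g, rfl⟩ := ih1
              obtain ⟨h, rfl⟩ := ih2
              exact ⟨h * g, by simp [sh_sh]⟩
          obtain ⟨g, hg⟩ := key x y h
          exact ⟨g, hg⟩
        · rintro ⟨g, rfl⟩
          have h1 : Cn A x (sh g x) := hx g
          have h2 : ∀ a b, Adj A a b → ∃ i, a ∈ d i ∧ m i a = b := by
            rintro a b ⟨g, hg, rfl⟩
            refine ⟨Encodable.encode g, ?_, ?_⟩
            · simpa [d, Encodable.decode₂_encode] using hg
            · simp [m, Encodable.decode₂_encode]
          exact Relation.EqvGen.mono h2 _ _ h1 }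
  have hcost : Φ.cost = gcost A := by
    unfold Graphing.cost gcost
    have hi : Function.Injective (Encodable.encode : G → ℕ) := Encodable.encode_injective
    have := hi.tsum_eq (f := fun i => bern G (d i)) (by
      intro i hi
      by_contra hcon
      apply hi
      have : Encodable.decode₂ G i = none := by
        cases h : Encodable.decode₂ G i with
        | none => rfl
        | some g =>
          exfalso; apply hcon
          rw [Encodable.decode₂_eq_some] at h
          exact ⟨g, h⟩
      simp [d, this])
    rw [show (∑' i, bern G (Φ.dom i)) = ∑' i, bern G (d i) from rfl, ← this]
    congr 1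
    ext g
    simp [d, Encodable.decode₂_encode]
  rw [← hcost]
  unfold groupCost
  refine iInf_le_of_le (G → ℝ) (iInf_le_of_le inferInstance (iInf_le_of_le inferInstance
    (iInf_le_of_le (shiftAction G) (iInf_le_of_le (bern G) (iInf_le_of_le hfree ?_)))))
  exact iInf_le _ Φ

end Pool.Agent.Lib.MP_7e9760_al
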