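import Pool.Agent.Lib.MP_7e9760_al.Mal

/-!
An infinite group with two-generated subgroups of bounded finite order has a nontrivial element
with infinite centralizer. The proof passes to an ultrapower, in which the group is malnormal.
-/

open Filter

namespace Pool.Agent.Lib.MP_7e9760_al

universe u

lemma finite_conj {G : Type u} [Group G] {x : G}
    (hx : (Subgroup.centralizer {x} : Set G).Finite) (y : G) :
    {g : G | g * x * g⁻¹ = y}.Finite := by
  rcases Set.eq_empty_or_nonempty {g : G | g * x * g⁻¹ = y} with h | ⟨g₀, hg₀⟩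
  · rw [h]; exact Set.finite_empty
  · have hsub : {g : G | g * x * g⁻¹ = y} ⊆ (fun c => g₀ * c) '' (Subgroup.centralizer {x}) := by
      intro g hg
      refine ⟨g₀⁻¹ * g, ?_, by group⟩
      rw [SetLike.mem_coe, Subgroup.mem_centralizer_iff]
      rintro a rfl
      have h1 : g * a * g⁻¹ = g₀ * a * g₀⁻¹ := by
        rw [Set.mem_ofPred_eq] at hg hg₀; rw [hg, hg₀]
      have h2 : g * a = g₀ * a * g₀⁻¹ * g := by rw [← h1]; group
      calc a * (g₀⁻¹ * g) = g₀⁻¹ * (g₀ * a * g₀⁻¹ * g) := by group
        _ = g₀⁻¹ * (g * a) := by rw [h2]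
        _ = g₀⁻¹ * g * a := by group
    exact (hx.image _).subset hsub

/-- Elements of a given prime order lie in finitely many conjugacy classes. -/
lemma finite_classes {G : Type u} [Group G]
    (hcent : ∀ x : G, x ≠ 1 → (Subgroup.centralizer {x} : Set G).Finite)
    (hfin : ∀ a b : G, Finite (Subgroup.closure ({a, b} : Set G))) (r : ℕ) (hr : r.Prime) :
    ∃ Z : Set G, Z.Finite ∧ ∀ b : G, orderOf b = r → ∃ g, g * b * g⁻¹ ∈ Z := by
  classical
  by_cases hex : ∃ a : G, orderOf a = r
  swap
  · push Not at hex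
    exact ⟨∅, Set.finite_empty, fun b hb => absurd hb (hex b)⟩
  obtain ⟨a, ha⟩ := hex
  have ha1 : a ≠ 1 := by
    rintro rfl; rw [orderOf_one] at ha; exact hr.one_lt.ne ha
  have : Fact r.Prime := ⟨hr⟩
  refine ⟨⋃ z ∈ {z | z ∈ Subgroup.centralizer {a} ∧ z ≠ 1}, (Subgroup.centralizer {z} : Set G),
    ?_, ?_⟩
  · apply Set.Finite.biUnion
    · exact (hcent a ha1).subset fun z hz => hz.1
    · intro z hz
      exact hcent z hz.2
  · intro b hb
    set F : Subgroup G := Subgroup.closure ({a, b} : Set G) with hF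
    have : Finite F := hfin a b
    set a' : F := ⟨a, Subgroup.subset_closure (by simp)⟩ with ha'
    set b' : F := ⟨b, Subgroup.subset_closure (by simp)⟩ with hb'
    have hoa : orderOf a' = r := by rw [← ha, ← Subgroup.orderOf_coe]
    have hob : orderOf b' = r := by rw [← hb, ← Subgroup.orderOf_coe]
    have hpa : IsPGroup r (Subgroup.zpowers a') := by
      apply IsPGroup.of_card (n := 1)
      rw [Nat.card_zpowers, hoa, pow_one]
    have hpb : IsPGroup r (Subgroup.zpowers b') := by
      apply IsPGroup.of_card (n := 1)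
      rw [Nat.card_zpowers, hob, pow_one]
    obtain ⟨P, hP⟩ := hpa.exists_le_sylow
    obtain ⟨P', hP'⟩ := hpb.exists_le_sylow
    obtain ⟨g, hg⟩ := MulAction.exists_smul_eq F P' P
    have haP : a' ∈ P := hP (Subgroup.mem_zpowers a')
    have hbP' : b' ∈ P' := hP' (Subgroup.mem_zpowers b')
    have hbP : g * b' * g⁻¹ ∈ P := by
      rw [← hg]
      have := Subgroup.smul_mem_pointwise_smul b' (MulAut.conj g) (P' : Subgroup F) hbP'
      simp only [MulAut.smul_def, MulAut.conj_apply] at this
      exact this
    have : Nontrivial P := by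
      refine ⟨⟨⟨a', haP⟩, 1, ?_⟩⟩
      intro h
      apply ha1
      have h1 : a' = 1 := congrArg (fun x : P => (x : F)) h
      exact congrArg (fun x : F => (x : G)) h1
    obtain ⟨z, hz1⟩ := @exists_ne _ (P.isPGroup'.center_nontrivial) (1 : Subgroup.center P)
    have hzc : ∀ y : P, y * (z : P) = z * y := fun y => Subgroup.mem_center_iff.1 z.2 y
    refine ⟨g, ?_⟩
    rw [Set.mem_iUnion]
    refine ⟨(((z : P) : F) : G), ?_⟩
    rw [Set.mem_iUnion]
    refine ⟨⟨?_, ?_⟩, ?_⟩
    · rw [Subgroup.mem_centralizer_iff]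
      rintro c rfl
      have := hzc ⟨a', haP⟩
      have h2 := congrArg (fun x : P => ((x : F) : G)) this
      simpa using h2
    · intro h
      apply hz1
      apply Subtype.ext
      apply Subtype.ext
      apply Subtype.ext
      simpa using h
    · rw [SetLike.mem_coe, Subgroup.mem_centralizer_iff]
      rintro c rfl
      have := hzc ⟨g * b' * g⁻¹, hbP⟩
      have h2 := congrArg (fun x : P => ((x : F) : G)) this
      simpa using h2.symm

theorem no_finite_centralizers {G : Type u} [Group G] [Infinite G]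
    (hcent : ∀ x : G, x ≠ 1 → (Subgroup.centralizer {x} : Set G).Finite) (M : ℕ)
    (h2 : ∀ a b : G, Finite (Subgroup.closure ({a, b} : Set G)) ∧
      Nat.card (Subgroup.closure ({a, b} : Set G)) ≤ M) : False := by
  classical
  let l : Filter G := (hyperfilter G : Filter G)
  let π : (G → G) →* Germ l G := Germ.coeMulHom l
  have hπ : ∀ f g : G → G, π f = π g ↔ ∀ᶠ i in (hyperfilter G : Filter G), f i = g i :=
    fun f g => Germ.coe_eq
  have hsurj : Function.Surjective π := Quot.mk_surjective
  let c : G →* Germ l G := π.comp (Pi.constMonoidHom G G)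
  have hc : ∀ g : G, c g = π (fun _ => g) := fun _ => rfl
  have hcinj : Function.Injective c := by
    intro a b hab
    rw [hc, hc, hπ] at hab
    exact hab.exists.choose_spec
  have hmul : ∀ f g : G → G, π f * π g = π (fun i => f i * g i) := fun f g => (map_mul π f g).symm
  have hinv : ∀ f : G → G, (π f)⁻¹ = π (fun i => (f i)⁻¹) := fun f => (map_inv π f).symm
  have hone : (1 : Germ l G) = π (fun _ => 1) := rfl
  refine no_malnormal (Γ := Germ l G) c.range ?_ ?_ ?_ ?_ ?_
  · -- malnormality
    rintro _ ⟨k, rfl⟩ hk1 g hg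
    obtain ⟨γ, rfl⟩ := hsurj g
    obtain ⟨k', hk'⟩ := hg
    have hk : k ≠ 1 := by rintro rfl; exact hk1 (map_one c)
    rw [hc, hc, hinv, hmul, hmul, hπ] at hk'
    have hS : {h : G | h⁻¹ * k * h = k'}.Finite := by
      have := (finite_conj (hcent k hk) k').image (fun g => g⁻¹)
      refine this.subset ?_
      intro h hh
      refine ⟨h⁻¹, ?_, inv_inv h⟩
      rw [Set.mem_ofPred_eq, inv_inv]
      exact hh
    have h3 : ∀ᶠ i in (hyperfilter G : Filter G), ∃ s ∈ {h : G | h⁻¹ * k * h = k'}, γ i = s := by
      filter_upwards [hk'] with i hi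
      exact ⟨γ i, hi.symm, rfl⟩
    rw [Ultrafilter.eventually_exists_mem_iff hS] at h3
    obtain ⟨s, _, hs⟩ := h3
    refine ⟨s, ?_⟩
    rw [hc, hπ]
    filter_upwards [hs] with i hi
    exact hi.symm
  · obtain ⟨x, hx⟩ := exists_ne (1 : G)
    refine ⟨c x, ⟨x, rfl⟩, ?_⟩
    intro h
    exact hx (hcinj (h.trans (map_one c).symm))
  · refine ⟨π id, ?_⟩
    rintro ⟨s, hs⟩
    rw [hc, hπ] at hs
    have : ({s} : Set G) ∈ hyperfilter G := by
      filter_upwards [hs] with i hi
      exact hi.symm
    exact (Set.finite_singleton s).notMem_hyperfilter this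
  · intro a b
    obtain ⟨α, rfl⟩ := hsurj a
    obtain ⟨β, rfl⟩ := hsurj b
    by_contra hinf
    rw [not_finite_iff_infinite] at hinf
    obtain ⟨t, ht⟩ := Infinite.exists_subset_card_eq
      (Subgroup.closure ({π α, π β} : Set (Germ l G))) (M + 1)
    have hmap : Subgroup.closure ({π α, π β} : Set (Germ l G)) =
        (Subgroup.closure ({α, β} : Set (G → G))).map π := by
      rw [MonoidHom.map_closure, Set.image_pair]
    have hlift : ∀ q : Subgroup.closure ({π α, π β} : Set (Germ l G)),
        ∃ W ∈ Subgroup.closure ({α, β} : Set (G → G)), π W = q := by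
      intro q
      exact hmap.le q.2
    choose W hW hWq using hlift
    have hne : ∀ᶠ i in (hyperfilter G : Filter G), ∀ q ∈ t, ∀ q' ∈ t, q ≠ q' → W q i ≠ W q' i := by
      rw [Filter.eventually_all_finset]
      intro q _
      rw [Filter.eventually_all_finset]
      intro q' _
      by_cases hqq : q = q'
      · exact Filter.Eventually.of_forall fun _ h => absurd hqq h
      · have : ¬ ∀ᶠ i in (hyperfilter G : Filter G), W q i = W q' i := by
          rw [← hπ, hWq, hWq]
          intro h; exact hqq (Subtype.ext h)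
        rw [← Ultrafilter.eventually_not] at this
        filter_upwards [this] with i hi _
        exact hi
    obtain ⟨i, hi⟩ := hne.exists
    obtain ⟨hf, hcard⟩ := h2 (α i) (β i)
    have hmem : ∀ q, W q i ∈ Subgroup.closure ({α i, β i} : Set G) := by
      intro q
      have h5 : (Pi.evalMonoidHom (fun _ : G => G) i) (W q) ∈
          (Subgroup.closure ({α, β} : Set (G → G))).map (Pi.evalMonoidHom (fun _ : G => G) i) :=
        Subgroup.mem_map_of_mem _ (hW q)
      rw [MonoidHom.map_closure, Set.image_pair] at h5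
      exact h5
    have hle : t.card ≤ Nat.card (Subgroup.closure ({α i, β i} : Set G)) := by
      have := Fintype.ofFinite (Subgroup.closure ({α i, β i} : Set G))
      rw [Nat.card_eq_fintype_card, ← Finset.card_univ]
      apply Finset.card_le_card_of_injOn (fun q => (⟨W q i, hmem q⟩ :
        Subgroup.closure ({α i, β i} : Set G)))
      · intro q _; simp
      · intro q hq q' hq' h
        by_contra hne
        exact hi q hq q' hq' hne (congrArg Subtype.val h)
    omega
  · intro k hk
    obtain ⟨κ, rfl⟩ := hsurj k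
    set r := orderOf (π κ) with hr
    obtain ⟨Z, hZ, hZ'⟩ := finite_classes hcent (fun a b => (h2 a b).1) r hk
    have h1 : ∀ᶠ i in (hyperfilter G : Filter G), (κ i) ^ r = 1 := by
      have : (π κ) ^ r = 1 := pow_orderOf_eq_one _
      rw [← map_pow, hone, hπ] at this
      filter_upwards [this] with i hi
      simpa using hi
    have h3 : ∀ᶠ i in (hyperfilter G : Filter G), κ i ≠ 1 := by
      have : ¬ ∀ᶠ i in (hyperfilter G : Filter G), κ i = 1 := by
        intro h
        have h4 : π κ = 1 := by rw [hone, hπ]; exact h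
        rw [h4, orderOf_one] at hr
        rw [hr] at hk
        exact Nat.not_prime_one hk
      rw [← Ultrafilter.eventually_not] at this
      exact this
    have h4 : ∀ᶠ i in (hyperfilter G : Filter G), ∃ z ∈ Z, ∃ g, g * κ i * g⁻¹ = z := by
      filter_upwards [h1, h3] with i hi1 hi3
      have : Fact r.Prime := ⟨hk⟩
      obtain ⟨g, hg⟩ := hZ' (κ i) (orderOf_eq_prime hi1 hi3)
      exact ⟨_, hg, g, rfl⟩
    rw [Ultrafilter.eventually_exists_mem_iff hZ] at h4
    obtain ⟨z, _, hz⟩ := h4
    obtain ⟨γ, hγ⟩ := hz.choice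
    refine ⟨π γ, z, ?_⟩
    rw [hc, hinv, hmul, hmul, hπ]
    filter_upwards [hγ] with i hi
    exact hi.symm

end Pool.Agent.Lib.MP_7e9760_al
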